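import Pool.Agent.Lib.MP_b098a7_gt.Hinge

set_option autoImplicit false

open MeasureTheory Set Filter Topology

namespace Pool.Agent.Lib.MP_b098a7_gt

noncomputable section

/-- midpoints of constants: the configuration which violates the four point comparison -/
lemma violation {p z : MM} (h0 : dist p (cs 0) = 1/2) (h1 : dist p (cs 1) = 1/2)
    (hpz : dist p z = 1/2) (hz : dist z (cs 2) = 1/2) :
    dist (cs 0) z + dist (cs 1) z = 3/2 ∧ dist p (cs 2) = 1 := by
  obtain ⟨f, rfl⟩ := exists_rep p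
  obtain ⟨g, rfl⟩ := exists_rep z
  simp only [cs, dist_qq] at *
  have e1 : ∀ᵐ w ∂mu, f.1 w = (cst 0).1 w ∨ f.1 w = (cst 1).1 w := by
    rw [← deg_iff, dist_comm, h0, h1]
    have := dist_cs (i := 0) (k := 1) (by decide)
    simp only [cs, dist_qq] at this
    rw [this]; norm_num
  have hf2 : dist f (cst 2) = 1 := by
    rw [dist_def]
    have : mu.real {w | f.1 w ≠ (cst 2).1 w} = mu.real univ := by
      refine measureReal_congr ?_
      rw [ae_eq_univ]
      rw [ae_iff] at e1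
      refine measure_mono_null ?_ e1
      intro w hw
      simp only [mem_compl_iff, mem_ofPred_eq, not_not, cst] at hw ⊢
      rw [hw]
      decide
    rw [this]
    simp
  refine ⟨?_, hf2⟩
  have e2 : ∀ᵐ w ∂mu, g.1 w = f.1 w ∨ g.1 w = (cst 2).1 w := by
    rw [← deg_iff, hpz, hz, hf2]; norm_num
  -- the set where z is off
  have e3 : dist (cst 0) g + dist (cst 1) g = 1 + dist f g := by
    simp only [dist_def]
    have hA := measurableSet_ne (cst 0) g
    have hB := measurableSet_ne (cst 1) g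
    rw [← measureReal_union_add_inter hB]
    have h3 : mu.real ({w | (cst 0).1 w ≠ g.1 w} ∪ {w | (cst 1).1 w ≠ g.1 w}) = 1 := by
      have : ({w | (cst 0).1 w ≠ g.1 w} ∪ {w | (cst 1).1 w ≠ g.1 w}) = univ := by
        ext w
        simp only [mem_union, mem_ofPred_eq, mem_univ, iff_true, cst]
        by_contra hcon
        rw [not_or, not_not, not_not] at hcon
        have := hcon.1.trans hcon.2.symm
        exact absurd this (by decide)
      rw [this]; simp
    have h4 : mu.real ({w | (cst 0).1 w ≠ g.1 w} ∩ {w | (cst 1).1 w ≠ g.1 w}) =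
        mu.real {w | f.1 w ≠ g.1 w} := by
      refine measureReal_congr ?_
      filter_upwards [e1, e2] with w hw1 hw2
      have : (w ∈ ({w | (cst 0).1 w ≠ g.1 w} ∩ {w | (cst 1).1 w ≠ g.1 w})) ↔
          (w ∈ {w | f.1 w ≠ g.1 w}) := by
        simp only [mem_inter_iff, mem_ofPred_eq, cst] at hw1 hw2 ⊢
        rcases hw2 with h | h
        · rcases hw1 with h' | h'
          · rw [h, h']; simp
          · rw [h, h']; simp
        · rcases hw1 with h' | h'
          · rw [h, h']; decide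
          · rw [h, h']; decide
      exact propext this
    rw [h3, h4]
  rw [e3, hpz]; norm_num

lemma dist_mid_const {p : MM} (h : dist (cs 0) p + dist p (cs 1) = dist (cs 0) (cs 1)) :
    dist p (cs 2) = 1 := by
  obtain ⟨f, rfl⟩ := exists_rep p
  simp only [cs, dist_qq] at *
  rw [deg_iff] at h
  rw [dist_def]
  have : mu.real {w | f.1 w ≠ (cst 2).1 w} = mu.real univ := by
    refine measureReal_congr ?_
    rw [ae_eq_univ]
    rw [ae_iff] at h
    refine measure_mono_null ?_ h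
    intro w hw
    simp only [mem_compl_iff, mem_ofPred_eq, not_not, cst] at hw ⊢
    rw [hw]
    decide
  rw [this]
  simp

/-- the numerical part of the violation: sum of the three comparison angles -/
lemma angle_sum {a b : ℝ} (ha : 0 ≤ a) (hb : 0 ≤ b) (ha1 : a ≤ 1) (hb1 : b ≤ 1)
    (hab : a + b = 3/2) :
    2 * Real.pi < Real.arccos (((1/2:ℝ) ^ 2 + (1/2) ^ 2 - 1 ^ 2) / (2 * (1/2) * (1/2))) +
      Real.arccos (((1/2:ℝ) ^ 2 + (1/2) ^ 2 - b ^ 2) / (2 * (1/2) * (1/2))) +
      Real.arccos (((1/2:ℝ) ^ 2 + (1/2) ^ 2 - a ^ 2) / (2 * (1/2) * (1/2))) := by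
  have e1 : (((1/2:ℝ) ^ 2 + (1/2) ^ 2 - 1 ^ 2) / (2 * (1/2) * (1/2))) = -1 := by norm_num
  have e2 : (((1/2:ℝ) ^ 2 + (1/2) ^ 2 - b ^ 2) / (2 * (1/2) * (1/2))) = 1 - 2 * b ^ 2 := by ring
  have e3 : (((1/2:ℝ) ^ 2 + (1/2) ^ 2 - a ^ 2) / (2 * (1/2) * (1/2))) = 1 - 2 * a ^ 2 := by ring
  rw [e1, e2, e3, Real.arccos_neg_one]
  have h : Real.pi < Real.arccos (1 - 2 * b ^ 2) + Real.arccos (1 - 2 * a ^ 2) := by
    have h1 : 1 - 2 * b ^ 2 < -(1 - 2 * a ^ 2) := by nlinarith [sq_nonneg (a - b)]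
    have h2 : Real.arccos (-(1 - 2 * a ^ 2)) = Real.pi - Real.arccos (1 - 2 * a ^ 2) :=
      Real.arccos_neg _
    have h3 : Real.arccos (-(1 - 2 * a ^ 2)) < Real.arccos (1 - 2 * b ^ 2) := by
      refine Real.strictAntiOn_arccos ⟨?_, ?_⟩ ⟨?_, ?_⟩ h1 <;> nlinarith
    linarith
  linarith

lemma dist_le_one (x y : MM) : dist x y ≤ 1 := by
  obtain ⟨f, rfl⟩ := exists_rep x
  obtain ⟨g, rfl⟩ := exists_rep y
  rw [dist_qq, dist_def]
  exact measureReal_le_one

/-- segments as maps into the subspace, with clamped parameter -/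
def seg (A : Set Crd) (j : A) (s : ℝ) : XS A :=
  ⟨ed j.1 (projIcc 0 1 zero_le_one s : ℝ),
    Gen_subset_XS A (EE_subset_Gen j.2 (ed_mem_EE (projIcc 0 1 zero_le_one s).2))⟩

lemma seg_val {A : Set Crd} (j : A) {s : ℝ} (hs : s ∈ Icc (0:ℝ) 1) :
    (seg A j s : MM) = ed j.1 s := by
  simp only [seg]
  rw [projIcc_of_mem zero_le_one hs]

lemma mem_seg_iff {A : Set Crd} (j : A) (x : XS A) :
    x ∈ seg A j '' Icc 0 1 ↔ (x : MM) ∈ EE j.1 := by
  constructor
  · rintro ⟨s, hs, rfl⟩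
    rw [seg_val j hs]
    exact ed_mem_EE hs
  · rintro ⟨s, hs, h⟩
    exact ⟨s, hs, Subtype.ext (by rw [seg_val j hs, h])⟩

lemma seg_dist {A : Set Crd} (j : A) {s t : ℝ} (hs : s ∈ Icc (0:ℝ) 1) (ht : t ∈ Icc (0:ℝ) 1) :
    dist (seg A j s) (seg A j t) = |s - t| * dist (seg A j 0) (seg A j 1) := by
  rw [Subtype.dist_eq, Subtype.dist_eq, seg_val j hs, seg_val j ht, seg_val j (by simp),
    seg_val j (by simp), ed_zero, ed_one]
  exact dist_ed_ed j.1 hs ht

lemma seg_affine {A : Set Crd} (j k : A) (hjk : j ≠ k) :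
    (∀ g ∈ seg A j '' Icc 0 1, ∀ s ∈ Icc (0:ℝ) 1,
      dist (seg A k s) g = s * dist (seg A k 1) g + (1 - s) * dist (seg A k 0) g) ∨
    (∀ g ∈ seg A k '' Icc 0 1, ∀ s ∈ Icc (0:ℝ) 1,
      dist (seg A j s) g = s * dist (seg A j 1) g + (1 - s) * dist (seg A j 0) g) := by
  have key : ∀ j k : A, k.1 ∉ insert j.1 (below j.1) → ∀ g ∈ seg A j '' Icc 0 1, ∀ s ∈ Icc (0:ℝ) 1,
      dist (seg A k s) g = s * dist (seg A k 1) g + (1 - s) * dist (seg A k 0) g := by
    intro j k h g hg s hs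
    rw [mem_seg_iff] at hg
    rw [Subtype.dist_eq, Subtype.dist_eq, Subtype.dist_eq, seg_val k hs, seg_val k (by simp),
      seg_val k (by simp)]
    exact dist_ed_of_mem (down_insert_below j.1) h hs
      (Gen_subset_XS _ (EE_subset_Gen (mem_insert _ _) hg))
  by_cases h : k.1 ∈ insert j.1 (below j.1)
  · right
    refine key k j ?_
    rcases h with h | h
    · exact absurd (Subtype.ext h.symm) hjk
    · rintro (h' | h')
      · exact hjk (Subtype.ext h')
      · exact wf_below.asymmetric _ _ h h'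
  · left
    exact key j k h

/-- every pair of points of the full space is joined by a geodesic -/
lemma exists_geodesic {A : Set Crd}
    (hfull : ∀ x ∈ XS A, ∀ y ∈ XS A, x ≠ y → ∃ j ∈ A, x ∈ EE j ∧ y ∈ EE j) (x y : XS A) :
    ∃ γ : ℝ → XS A, γ 0 = x ∧ γ (dist x y) = y ∧
      ∀ s ∈ Icc (0:ℝ) (dist x y), ∀ t ∈ Icc (0:ℝ) (dist x y), dist (γ s) (γ t) = |s - t| := by
  by_cases hxy : x = y
  · subst hxy
    refine ⟨fun _ => x, rfl, rfl, ?_⟩
    rw [dist_self]
    intro s hs t ht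
    have h1 : s = 0 := le_antisymm hs.2 hs.1
    have h2 : t = 0 := le_antisymm ht.2 ht.1
    rw [h1, h2, dist_self]
    simp
  · have hd : 0 < dist x y := dist_pos.2 hxy
    obtain ⟨j, hj, h1, h2⟩ := hfull x x.2 y y.2 (fun h => hxy (Subtype.ext h))
    obtain ⟨a, ha, hxa⟩ := (mem_seg_iff ⟨j, hj⟩ x).2 h1
    obtain ⟨b, hb, hyb⟩ := (mem_seg_iff ⟨j, hj⟩ y).2 h2
    have hL := seg_dist ⟨j, hj⟩ ha hb
    rw [hxa, hyb] at hL
    refine ⟨fun s => seg A ⟨j, hj⟩ (a + (b - a) * (s / dist x y)), ?_, ?_, ?_⟩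
    · simp [hxa]
    · show seg A ⟨j, hj⟩ (a + (b - a) * (dist x y / dist x y)) = y
      rw [div_self hd.ne', mul_one, add_sub_cancel, hyb]
    · have hmem : ∀ s ∈ Icc (0:ℝ) (dist x y), a + (b - a) * (s / dist x y) ∈ Icc (0:ℝ) 1 := by
        intro s hs
        have h3 : 0 ≤ s / dist x y := div_nonneg hs.1 hd.le
        have h4 : s / dist x y ≤ 1 := (div_le_one hd).2 hs.2
        have h5 : a + (b - a) * (s / dist x y) =
          (1 - s / dist x y) * a + (s / dist x y) * b := by ring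
        rw [h5]
        constructor
        · have := mul_nonneg (sub_nonneg.2 h4) ha.1
          have := mul_nonneg h3 hb.1
          linarith
        · have := mul_le_mul_of_nonneg_left ha.2 (sub_nonneg.2 h4)
          have := mul_le_mul_of_nonneg_left hb.2 h3
          linarith
      intro s hs t ht
      rw [seg_dist ⟨j, hj⟩ (hmem s hs) (hmem t ht)]
      have h6 : a + (b - a) * (s / dist x y) - (a + (b - a) * (t / dist x y)) =
        -((a - b) * ((s - t) / dist x y)) := by ring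
      rw [h6, abs_neg, abs_mul, abs_div, abs_of_pos hd]
      have h7 : |a - b| * (|s - t| / dist x y) * dist (seg A ⟨j, hj⟩ 0) (seg A ⟨j, hj⟩ 1) =
        (|s - t| / dist x y) * (|a - b| * dist (seg A ⟨j, hj⟩ 0) (seg A ⟨j, hj⟩ 1)) := by ring
      rw [h7, ← hL]
      field_simp

end

end Pool.Agent.Lib.MP_b098a7_gt
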