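import Pool.Agent.Lib.MP_b098a7_gt.Zorn

set_option autoImplicit false

open MeasureTheory Set Filter Topology

namespace Pool.Agent.Lib.MP_b098a7_gt

noncomputable section

/-- comparison angle expression -/
lemma cmp_same {s t : ℝ} (hs : 0 < s) (ht : 0 < t) :
    Real.arccos ((s ^ 2 + t ^ 2 - |s - t| ^ 2) / (2 * s * t)) = 0 := by
  have : (s ^ 2 + t ^ 2 - |s - t| ^ 2) / (2 * s * t) = 1 := by
    rw [sq_abs]
    field_simp
    ring
  rw [this, Real.arccos_one]

lemma tendsto_cmp {D : ℝ × ℝ → ℝ} {K r : ℝ} (hr : 0 < r)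
    (h1 : ∀ s t, 0 < s → s < r → 0 < t → t < r → D (s, t) ≤ s + t)
    (h2 : ∀ s t, 0 < s → s < r → 0 < t → t < r → s + t - K * (s * t) ≤ D (s, t)) :
    Tendsto (fun q : ℝ × ℝ => Real.arccos ((q.1 ^ 2 + q.2 ^ 2 - D q ^ 2) / (2 * q.1 * q.2)))
      (𝓝[>] (0:ℝ) ×ˢ 𝓝[>] (0:ℝ)) (𝓝 Real.pi) := by
  rw [← Real.arccos_neg_one]
  refine (Real.continuous_arccos.tendsto _).comp ?_
  have hK : ∀ᶠ q : ℝ × ℝ in 𝓝[>] (0:ℝ) ×ˢ 𝓝[>] (0:ℝ), 0 < q.1 ∧ q.1 < r ∧ 0 < q.2 ∧ q.2 < r := by
    have h : ∀ᶠ s : ℝ in 𝓝[>] (0:ℝ), 0 < s ∧ s < r := Ioo_mem_nhdsGT hr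
    filter_upwards [h.prod_mk h] with q hq
    exact ⟨hq.1.1, hq.1.2, hq.2.1, hq.2.2⟩
  have hlim : Tendsto (fun q : ℝ × ℝ => -1 + |K| * (q.1 + q.2)) (𝓝[>] (0:ℝ) ×ˢ 𝓝[>] (0:ℝ)) (𝓝 (-1)) := by
    have h3 : Tendsto (fun q : ℝ × ℝ => -1 + |K| * (q.1 + q.2)) (𝓝 ((0:ℝ), (0:ℝ)))
        (𝓝 (-1 + |K| * ((0:ℝ) + 0))) := by
      apply Continuous.tendsto'
      · fun_prop
      · simp
    have h4 : -1 + |K| * ((0:ℝ) + 0) = -1 := by ring
    rw [h4] at h3
    refine h3.mono_left ?_
    rw [nhds_prod_eq]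
    exact Filter.prod_mono nhdsWithin_le_nhds nhdsWithin_le_nhds
  have hlow : ∀ᶠ q : ℝ × ℝ in 𝓝[>] (0:ℝ) ×ˢ 𝓝[>] (0:ℝ), 0 ≤ D q := by
    -- for small arguments the lower bound is nonnegative
    have h5 : Tendsto (fun q : ℝ × ℝ => |K| * (q.1 + q.2)) (𝓝[>] (0:ℝ) ×ˢ 𝓝[>] (0:ℝ)) (𝓝 0) := by
      have := hlim.const_add 1
      simpa using this
    filter_upwards [hK, h5.eventually (gt_mem_nhds (show (0:ℝ) < 1 by norm_num))] with q hq hq'
    obtain ⟨a, b, c, d⟩ := hq
    have h6 := h2 q.1 q.2 a b c d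
    have h7 : K * (q.1 * q.2) ≤ |K| * (q.1 * q.2) :=
      mul_le_mul_of_nonneg_right (le_abs_self K) (by positivity)
    have h8 : |K| * (q.1 * q.2) ≤ q.1 := by
      have h9 : |K| * q.2 ≤ 1 := by nlinarith [abs_nonneg K, mul_nonneg (abs_nonneg K) a.le]
      nlinarith
    have : (q.1, q.2) = q := rfl
    rw [this] at h6
    linarith
  refine tendsto_of_tendsto_of_tendsto_of_le_of_le' tendsto_const_nhds hlim ?_ ?_
  · filter_upwards [hK, hlow] with q hq hq0
    obtain ⟨a, b, c, d⟩ := hq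
    have h6 := h1 q.1 q.2 a b c d
    have : (q.1, q.2) = q := rfl
    rw [this] at h6
    rw [le_div_iff₀ (by positivity)]
    nlinarith
  · filter_upwards [hK, hlow] with q hq hq0
    obtain ⟨a, b, c, d⟩ := hq
    have h6 := h2 q.1 q.2 a b c d
    have : (q.1, q.2) = q := rfl
    rw [this] at h6
    have h7 : K * (q.1 * q.2) ≤ |K| * (q.1 * q.2) :=
      mul_le_mul_of_nonneg_right (le_abs_self K) (by positivity)
    rw [div_le_iff₀ (by positivity)]
    have h8 : q.1 + q.2 - |K| * (q.1 * q.2) ≤ D q := by linarith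
    have h9 : (q.1 + q.2) ^ 2 - 2 * (|K| * (q.1 * q.2)) * (q.1 + q.2) ≤ D q ^ 2 := by
      rcases le_total 0 (q.1 + q.2 - |K| * (q.1 * q.2)) with h | h
      · have := pow_le_pow_left₀ h h8 2
        nlinarith [sq_nonneg (|K| * (q.1 * q.2))]
      · nlinarith [sq_nonneg (D q)]
    nlinarith

/-- Hinge property from the segment structure. -/
theorem hinge_of_segments {M I : Type*} [MetricSpace M] (e : I → ℝ → M)
    (hee : ∀ j, ∀ s ∈ Icc (0:ℝ) 1, ∀ t ∈ Icc (0:ℝ) 1,
      dist (e j s) (e j t) = |s - t| * dist (e j 0) (e j 1))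
    (haff : ∀ j k, j ≠ k →
      (∀ g ∈ e j '' Icc 0 1, ∀ s ∈ Icc (0:ℝ) 1,
        dist (e k s) g = s * dist (e k 1) g + (1 - s) * dist (e k 0) g) ∨
      (∀ g ∈ e k '' Icc 0 1, ∀ s ∈ Icc (0:ℝ) 1,
        dist (e j s) g = s * dist (e j 1) g + (1 - s) * dist (e j 0) g))
    (hjoin : ∀ x y : M, x ≠ y → ∃ j, x ∈ e j '' Icc 0 1 ∧ y ∈ e j '' Icc 0 1)
    (huniq : ∀ j k, j ≠ k → ∀ x y, x ∈ e j '' Icc 0 1 → y ∈ e j '' Icc 0 1 →
      x ∈ e k '' Icc 0 1 → y ∈ e k '' Icc 0 1 → x = y)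
    (hdeg : ∀ x y z : M, x ≠ y → y ≠ z → dist x y + dist y z = dist x z →
      ∃ j, x ∈ e j '' Icc 0 1 ∧ y ∈ e j '' Icc 0 1 ∧ z ∈ e j '' Icc 0 1)
    (p x y : M) (hx : x ≠ p) (hy : y ≠ p) (γ δ : ℝ → M)
    (hγ : γ 0 = p ∧ γ (dist p x) = x ∧
      ∀ s ∈ Icc (0:ℝ) (dist p x), ∀ t ∈ Icc (0:ℝ) (dist p x), dist (γ s) (γ t) = |s - t|)
    (hδ : δ 0 = p ∧ δ (dist p y) = y ∧
      ∀ s ∈ Icc (0:ℝ) (dist p y), ∀ t ∈ Icc (0:ℝ) (dist p y), dist (δ s) (δ t) = |s - t|) :
    ∃ α : ℝ,
      Tendsto (fun q : ℝ × ℝ =>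
          Real.arccos ((dist p (γ q.1) ^ 2 + dist p (δ q.2) ^ 2 - dist (γ q.1) (δ q.2) ^ 2) /
            (2 * dist p (γ q.1) * dist p (δ q.2))))
        (𝓝[>] (0:ℝ) ×ˢ 𝓝[>] (0:ℝ)) (𝓝 α) ∧
      Real.arccos ((dist p x ^ 2 + dist p y ^ 2 - dist x y ^ 2) / (2 * dist p x * dist p y)) ≤ α := by
  -- a geodesic lies in one segment, with explicit parametrisation
  have key : ∀ (x : M) (γ : ℝ → M), x ≠ p → γ 0 = p → γ (dist p x) = x →
      (∀ s ∈ Icc (0:ℝ) (dist p x), ∀ t ∈ Icc (0:ℝ) (dist p x), dist (γ s) (γ t) = |s - t|) →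
      ∃ (j : I) (a σ : ℝ), a ∈ Icc (0:ℝ) 1 ∧ 0 < dist (e j 0) (e j 1) ∧ p = e j a ∧
        (σ = 1 ∨ σ = -1) ∧
        ∀ s ∈ Icc (0:ℝ) (dist p x), a + σ * s / dist (e j 0) (e j 1) ∈ Icc (0:ℝ) 1 ∧
          γ s = e j (a + σ * s / dist (e j 0) (e j 1)) := by
    intro x γ hx h0 h1 hiso
    have hl : 0 < dist p x := dist_pos.2 (Ne.symm hx)
    obtain ⟨j, ⟨a, ha, hpa⟩, ⟨b, hb, hxb⟩⟩ := hjoin p x (Ne.symm hx)
    have hab : dist p x = |a - b| * dist (e j 0) (e j 1) := by
      rw [← hpa, ← hxb]; exact hee j a ha b hb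
    have hL : 0 < dist (e j 0) (e j 1) := by
      rcases eq_or_lt_of_le (dist_nonneg (x := e j 0) (y := e j 1)) with h | h
      · rw [← h, mul_zero] at hab; linarith
      · exact h
    set L := dist (e j 0) (e j 1) with hLdef
    have hin : ∀ s ∈ Icc (0:ℝ) (dist p x), γ s ∈ e j '' Icc 0 1 := by
      intro s hs
      rcases eq_or_lt_of_le hs.1 with h | h
      · rw [← h, h0]; exact ⟨a, ha, hpa⟩
      · rcases eq_or_lt_of_le hs.2 with h' | h'
        · rw [h', h1]; exact ⟨b, hb, hxb⟩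
        · have d1 : dist p (γ s) = s := by
            have := hiso 0 ⟨le_rfl, hl.le⟩ s hs
            rw [h0] at this
            rw [this, zero_sub, abs_neg, abs_of_pos h]
          have d2 : dist (γ s) x = dist p x - s := by
            have := hiso s hs (dist p x) ⟨hl.le, le_rfl⟩
            rw [h1] at this
            rw [this, abs_of_neg (by linarith)]; ring
          obtain ⟨k, k1, k2, k3⟩ := hdeg p (γ s) x
            (by intro hh; rw [← hh, dist_self] at d1; linarith)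
            (by intro hh; rw [hh, dist_self] at d2; linarith) (by rw [d1, d2]; ring)
          by_cases hjk : j = k
          · rw [hjk]; exact k2
          · exact absurd (huniq j k hjk p x ⟨a, ha, hpa⟩ ⟨b, hb, hxb⟩ k1 k3) (Ne.symm hx)
    have hne : a ≠ b := by
      rintro rfl
      rw [sub_self, abs_zero, zero_mul] at hab
      linarith
    refine ⟨j, a, if a < b then 1 else -1, ha, hL, hpa.symm, ?_, ?_⟩
    · split_ifs
      · exact Or.inl rfl
      · exact Or.inr rfl
    · intro s hs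
      obtain ⟨c, hc, hcs⟩ := hin s hs
      have d1 : |a - c| * L = s := by
        have h3 := hee j a ha c hc
        rw [hpa, hcs] at h3
        have h4 := hiso 0 ⟨le_rfl, hl.le⟩ s hs
        rw [h0] at h4
        rw [← h3, h4, zero_sub, abs_neg, abs_of_nonneg hs.1]
      have d2 : |c - b| * L = dist p x - s := by
        have h3 := hee j c hc b hb
        rw [hxb, hcs] at h3
        have h4 := hiso s hs (dist p x) ⟨hl.le, le_rfl⟩
        rw [h1] at h4
        rw [← h3, h4, abs_of_nonpos (by linarith [hs.2])]; ring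
      have hcval : a + (if a < b then (1:ℝ) else -1) * s / L = c := by
        split_ifs with hlt
        · rw [abs_of_neg (by linarith : a - b < 0)] at hab
          have hca : a ≤ c := by
            by_contra hcon
            push Not at hcon
            rw [abs_of_pos (by linarith)] at d1
            rw [abs_of_neg (by linarith)] at d2
            nlinarith
          rw [abs_of_nonpos (by linarith)] at d1
          field_simp
          linarith
        · have hlt' : b < a := lt_of_le_of_ne (not_lt.1 hlt) (Ne.symm hne)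
          rw [abs_of_pos (by linarith : 0 < a - b)] at hab
          have hca : c ≤ a := by
            by_contra hcon
            push Not at hcon
            rw [abs_of_neg (by linarith)] at d1
            rw [abs_of_pos (by linarith)] at d2
            nlinarith
          rw [abs_of_nonneg (by linarith)] at d1
          field_simp
          linarith
      rw [hcval]
      exact ⟨hc, hcs.symm⟩
  obtain ⟨j, a, σ, ha, hL, hpa, hσ, hpar⟩ := key x γ hx hγ.1 hγ.2.1 hγ.2.2
  obtain ⟨k, b, τ, hb, hN, hpb, hτ, hpar'⟩ := key y δ hy hδ.1 hδ.2.1 hδ.2.2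
  have hlx : 0 < dist p x := dist_pos.2 (Ne.symm hx)
  have hly : 0 < dist p y := dist_pos.2 (Ne.symm hy)
  have dγ : ∀ s ∈ Icc (0:ℝ) (dist p x), dist p (γ s) = s := by
    intro s hs
    have := hγ.2.2 0 ⟨le_rfl, hlx.le⟩ s hs
    rw [hγ.1] at this
    rw [this, zero_sub, abs_neg, abs_of_nonneg hs.1]
  have dδ : ∀ s ∈ Icc (0:ℝ) (dist p y), dist p (δ s) = s := by
    intro s hs
    have := hδ.2.2 0 ⟨le_rfl, hly.le⟩ s hs
    rw [hδ.1] at this
    rw [this, zero_sub, abs_neg, abs_of_nonneg hs.1]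
  set r := min (dist p x) (dist p y) with hr
  have hrpos : 0 < r := lt_min hlx hly
  have hrx : r ≤ dist p x := min_le_left _ _
  have hry : r ≤ dist p y := min_le_right _ _
  -- reduction of the limit to the distance function
  have hred : ∀ α : ℝ, Tendsto (fun q : ℝ × ℝ =>
        Real.arccos ((q.1 ^ 2 + q.2 ^ 2 - dist (γ q.1) (δ q.2) ^ 2) / (2 * q.1 * q.2)))
        (𝓝[>] (0:ℝ) ×ˢ 𝓝[>] (0:ℝ)) (𝓝 α) →
      Tendsto (fun q : ℝ × ℝ =>
          Real.arccos ((dist p (γ q.1) ^ 2 + dist p (δ q.2) ^ 2 - dist (γ q.1) (δ q.2) ^ 2) /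
            (2 * dist p (γ q.1) * dist p (δ q.2))))
        (𝓝[>] (0:ℝ) ×ˢ 𝓝[>] (0:ℝ)) (𝓝 α) := by
    intro α h
    refine h.congr' ?_
    have h3 : ∀ᶠ s : ℝ in 𝓝[>] (0:ℝ), 0 < s ∧ s < r := Ioo_mem_nhdsGT hrpos
    filter_upwards [h3.prod_mk h3] with q hq
    rw [dγ q.1 ⟨hq.1.1.le, by linarith [hq.1.2]⟩, dδ q.2 ⟨hq.2.1.le, by linarith [hq.2.2]⟩]
  -- the opposite case
  have hopp : ∀ K : ℝ, ∀ r' : ℝ, 0 < r' → r' ≤ r → (∀ s t, 0 < s → s < r' → 0 < t → t < r' →
      s + t - K * (s * t) ≤ dist (γ s) (δ t)) → ∃ α : ℝ,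
      Tendsto (fun q : ℝ × ℝ =>
          Real.arccos ((dist p (γ q.1) ^ 2 + dist p (δ q.2) ^ 2 - dist (γ q.1) (δ q.2) ^ 2) /
            (2 * dist p (γ q.1) * dist p (δ q.2))))
        (𝓝[>] (0:ℝ) ×ˢ 𝓝[>] (0:ℝ)) (𝓝 α) ∧
      Real.arccos ((dist p x ^ 2 + dist p y ^ 2 - dist x y ^ 2) / (2 * dist p x * dist p y)) ≤ α := by
    intro K r' hr' hr'r hK
    refine ⟨Real.pi, hred _ ?_, Real.arccos_le_pi _⟩
    refine tendsto_cmp (D := fun q => dist (γ q.1) (δ q.2)) (K := K) hr' ?_ hK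
    intro s t hs hs' ht ht'
    have h1 := dist_triangle_left (γ s) (δ t) p
    rw [dγ s ⟨hs.le, by linarith⟩, dδ t ⟨ht.le, by linarith⟩] at h1
    exact h1
  by_cases hjk : j = k
  · subst hjk
    have hab : a = b := by
      have h := hee j a ha b hb
      rw [← hpa, ← hpb, dist_self] at h
      have h2 : |a - b| = 0 := by
        rcases mul_eq_zero.1 h.symm with h | h
        · exact h
        · exact absurd h hL.ne'
      linarith [abs_eq_zero.1 h2]
    subst hab
    set L := dist (e j 0) (e j 1) with hLdef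
    have hdist : ∀ s ∈ Icc (0:ℝ) (dist p x), ∀ t ∈ Icc (0:ℝ) (dist p y),
        dist (γ s) (δ t) = |σ * s - τ * t| := by
      intro s hs t ht
      rw [(hpar s hs).2, (hpar' t ht).2, hee j _ (hpar s hs).1 _ (hpar' t ht).1]
      have : a + σ * s / L - (a + τ * t / L) = (σ * s - τ * t) / L := by
        field_simp
        ring
      rw [this, abs_div, abs_of_pos hL, ← hLdef, div_mul_cancel₀ _ hL.ne']
    have hsame : ∀ ρ : ℝ, (ρ = 1 ∨ ρ = -1) → ∀ s t : ℝ, |ρ * s - ρ * t| = |s - t| := by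
      rintro ρ (rfl | rfl) s t
      · simp
      · rw [← abs_neg]; congr 1; ring
    by_cases hst : σ = τ
    · subst hst
      refine ⟨0, hred _ ?_, ?_⟩
      · refine (tendsto_const_nhds (x := (0:ℝ))).congr' ?_
        have h3 : ∀ᶠ s : ℝ in 𝓝[>] (0:ℝ), 0 < s ∧ s < r := Ioo_mem_nhdsGT hrpos
        filter_upwards [h3.prod_mk h3] with q hq
        rw [hdist q.1 ⟨hq.1.1.le, by linarith [hq.1.2]⟩ q.2 ⟨hq.2.1.le, by linarith [hq.2.2]⟩,
          hsame σ hσ, cmp_same hq.1.1 hq.2.1]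
      · have h4 := hdist (dist p x) ⟨hlx.le, le_rfl⟩ (dist p y) ⟨hly.le, le_rfl⟩
        rw [hγ.2.1, hδ.2.1, hsame σ hσ] at h4
        rw [h4, cmp_same hlx hly]
    · refine hopp 0 r hrpos le_rfl fun s t hs hs' ht ht' => ?_
      rw [hdist s ⟨hs.le, by linarith⟩ t ⟨ht.le, by linarith⟩]
      rcases hσ with rfl | rfl <;> rcases hτ with rfl | rfl
      · exact absurd rfl hst
      · have : (1:ℝ) * s - -1 * t = s + t := by ring
        rw [this, abs_of_pos (by linarith)]; linarith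
      · have : (-1:ℝ) * s - 1 * t = -(s + t) := by ring
        rw [this, abs_neg, abs_of_pos (by linarith)]; linarith
      · exact absurd rfl hst
  · -- different segments
    -- general computation when the distance functions are affine along the second segment
    have hgen : ∀ (j k : I) (a b σ τ : ℝ) (x y : M) (γ δ : ℝ → M), a ∈ Icc (0:ℝ) 1 → b ∈ Icc (0:ℝ) 1 →
        0 < dist (e k 0) (e k 1) → p = e j a → p = e k b →
        (τ = 1 ∨ τ = -1) →
        (∀ s ∈ Icc (0:ℝ) (dist p x), γ s ∈ e j '' Icc 0 1) →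
        (∀ t ∈ Icc (0:ℝ) (dist p y), b + τ * t / dist (e k 0) (e k 1) ∈ Icc (0:ℝ) 1 ∧
          δ t = e k (b + τ * t / dist (e k 0) (e k 1))) →
        (∀ s ∈ Icc (0:ℝ) (dist p x), dist p (γ s) = s) →
        0 < dist p y →
        (∀ g ∈ e j '' Icc 0 1, ∀ s ∈ Icc (0:ℝ) 1,
          dist (e k s) g = s * dist (e k 1) g + (1 - s) * dist (e k 0) g) →
        ∀ s ∈ Icc (0:ℝ) (dist p x), ∀ t ∈ Icc (0:ℝ) (dist p y),
          s + t - 2 / dist (e k 0) (e k 1) * (s * t) ≤ dist (γ s) (δ t) := by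
      intro j k a b σ τ x y γ δ ha hb hN hpa hpb hτ hin hpar' dγ hly haf s hs t ht
      set N := dist (e k 0) (e k 1) with hNdef
      have hb01 : b = 0 ∨ b = 1 := by
        have h := haf p (hpa ▸ ⟨a, ha, rfl⟩) b hb
        rw [← hpb, dist_self, hpb, hee k 1 (by simp) b hb, hee k 0 (by simp) b hb, ← hNdef,
          abs_of_nonneg (by linarith [hb.2]), abs_of_nonpos (by linarith [hb.1])] at h
        have h2 : b * (1 - b) * N = 0 := by linarith
        rcases mul_eq_zero.1 h2 with h3 | h3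
        · rcases mul_eq_zero.1 h3 with h4 | h4
          · exact Or.inl h4
          · right; linarith
        · exact absurd h3 hN.ne'
      have hdist := haf (γ s) (hin s hs) _ (hpar' t ht).1
      rw [← (hpar' t ht).2] at hdist
      rw [dist_comm (γ s), hdist]
      have hτb := (hpar' _ (⟨hly.le, le_rfl⟩ : dist p y ∈ Icc (0:ℝ) (dist p y))).1
      have htN : 0 ≤ t / N := div_nonneg ht.1 hN.le
      rcases hb01 with rfl | rfl
      · have hτ1 : τ = 1 := by
          rcases hτ with h | h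
          · exact h
          · exfalso
            rw [h] at hτb
            have := hτb.1
            have h5 : 0 < dist p y / N := div_pos hly hN
            have h6 : 0 + -1 * dist p y / N = -(dist p y / N) := by ring
            rw [h6] at this
            linarith
        subst hτ1
        have hmem := (hpar' t ht).1
        have e1 : (0:ℝ) + 1 * t / N = t / N := by ring
        rw [e1] at hmem ⊢
        have h5 : dist (e k 0) (γ s) = s := by rw [← hpb]; exact dγ s hs
        have h6 : N - s ≤ dist (e k 1) (γ s) := by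
          have := dist_triangle_right (e k 0) (e k 1) (γ s)
          rw [h5] at this
          linarith
        rw [h5]
        have h7 := mul_le_mul_of_nonneg_left h6 htN
        have h8 : t / N * (N - s) + (1 - t / N) * s = s + t - 2 / N * (s * t) := by
          field_simp
          ring
        linarith
      · have hτ1 : τ = -1 := by
          rcases hτ with h | h
          · exfalso
            rw [h] at hτb
            have := hτb.2
            have h5 : 0 < dist p y / N := div_pos hly hN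
            have h6 : 1 + 1 * dist p y / N = 1 + (dist p y / N) := by ring
            rw [h6] at this
            linarith
          · exact h
        subst hτ1
        have hmem := (hpar' t ht).1
        have e1 : (1:ℝ) + -1 * t / N = 1 - t / N := by ring
        rw [e1] at hmem ⊢
        have h5 : dist (e k 1) (γ s) = s := by rw [← hpb]; exact dγ s hs
        have h6 : N - s ≤ dist (e k 0) (γ s) := by
          have := dist_triangle_right (e k 0) (e k 1) (γ s)
          rw [h5] at this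
          linarith
        rw [h5]
        have h7 := mul_le_mul_of_nonneg_left h6 htN
        have h8 : t / N * (N - s) + (1 - t / N) * s = s + t - 2 / N * (s * t) := by
          field_simp
          ring
        have h9 : (1 - (1 - t / N)) = t / N := by ring
        rw [h9]
        linarith
    have hinγ : ∀ s ∈ Icc (0:ℝ) (dist p x), γ s ∈ e j '' Icc 0 1 := fun s hs =>
      ⟨_, (hpar s hs).1, (hpar s hs).2.symm⟩
    have hinδ : ∀ s ∈ Icc (0:ℝ) (dist p y), δ s ∈ e k '' Icc 0 1 := fun s hs =>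
      ⟨_, (hpar' s hs).1, (hpar' s hs).2.symm⟩
    rcases haff j k hjk with haf | haf
    · refine hopp (2 / dist (e k 0) (e k 1)) r hrpos le_rfl fun s t hs hs' ht ht' => ?_
      exact hgen j k a b σ τ x y γ δ ha hb hN hpa hpb hτ hinγ hpar' dγ hly haf s
        ⟨hs.le, by linarith⟩ t ⟨ht.le, by linarith⟩
    · refine hopp (2 / dist (e j 0) (e j 1)) r hrpos le_rfl fun s t hs hs' ht ht' => ?_
      have := hgen k j b a τ σ y x δ γ hb ha hL hpb hpa hσ hinδ hpar dδ hlx haf t
        ⟨ht.le, by linarith⟩ s ⟨hs.le, by linarith⟩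
      rw [dist_comm (γ s) (δ t)]
      linarith

end

end Pool.Agent.Lib.MP_b098a7_gt
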