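import Mathlib

set_option autoImplicit false

open MeasureTheory Set Filter Topology
open scoped ENNReal

namespace Pool.Agent.Lib.MP_b098a7_gt

noncomputable section

/-- Index set of the independent coordinates. -/
inductive Crd : Type
  | base : Fin 3 → Crd
  | mk : (ℕ → Crd) → (ℕ → ℝ) → (ℕ → Crd) → (ℕ → ℝ) → Crd

/-- The sample space. -/
abbrev Om : Type := Crd → ℝ

/-- Uniform law on the unit interval. -/
def unif : Measure ℝ := volume.restrict (Icc 0 1)

instance : IsProbabilityMeasure unif := ⟨by simp [unif]⟩

/-- The law of the whole family of independent uniform coordinates. -/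
def mu : Measure Om := Measure.infinitePi (fun _ : Crd => unif)

instance : IsProbabilityMeasure mu := by unfold mu; infer_instance

/-- eventual value of a sequence (0 when there is none) -/
def evLim (u : ℕ → Fin 3) : Fin 3 :=
  open Classical in if h : ∃ c, ∀ᶠ n in atTop, u n = c then h.choose else 0

lemma evLim_eq {u : ℕ → Fin 3} {c : Fin 3} (h : ∀ᶠ n in atTop, u n = c) : evLim u = c := by
  classical
  have h' : ∃ c, ∀ᶠ n in atTop, u n = c := ⟨c, h⟩
  unfold evLim
  rw [dif_pos h']
  obtain ⟨n, h1, h2⟩ := (h'.choose_spec.and h).exists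
  rw [← h1, h2]

lemma evLim_of_not {u : ℕ → Fin 3} (h : ¬ ∃ c, ∀ᶠ n in atTop, u n = c) : evLim u = 0 := by
  classical
  unfold evLim
  rw [dif_neg h]

lemma measurable_evLim : Measurable evLim := by
  have key : ∀ c : Fin 3, MeasurableSet {u : ℕ → Fin 3 | ∀ᶠ n in atTop, u n = c} := by
    intro c
    have : {u : ℕ → Fin 3 | ∀ᶠ n in atTop, u n = c} = ⋃ N, ⋂ n, ⋂ (_ : N ≤ n), {u | u n = c} := by
      ext u
      simp [eventually_atTop]
    rw [this]
    refine MeasurableSet.iUnion fun N => MeasurableSet.iInter fun n => MeasurableSet.iInter fun _ => ?_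
    exact measurableSet_eq_fun (measurable_pi_apply n) measurable_const
  refine measurable_to_countable' fun c => ?_
  by_cases hc : c = 0
  · subst hc
    have : evLim ⁻¹' {0} = {u | ∀ᶠ n in atTop, u n = 0} ∪
        ({u | ∀ᶠ n in atTop, u n = 0} ∪ {u | ∀ᶠ n in atTop, u n = 1} ∪
          {u | ∀ᶠ n in atTop, u n = 2})ᶜ := by
      ext u
      simp only [mem_preimage, mem_singleton_iff, mem_union, mem_ofPred_eq, mem_compl_iff]
      constructor
      · intro h
        by_contra hcon
        rw [not_or, not_not] at hcon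
        obtain ⟨h1, h2⟩ := hcon
        rcases h2 with (h2 | h2) | h2
        · exact h1 h2
        · rw [evLim_eq h2] at h; exact absurd h (by decide)
        · rw [evLim_eq h2] at h; exact absurd h (by decide)
      · rintro (h | h)
        · exact evLim_eq h
        · have : ¬ ∃ c, ∀ᶠ n in atTop, u n = c := by
            rintro ⟨c, hc⟩
            apply h
            fin_cases c
            · exact Or.inl (Or.inl hc)
            · exact Or.inl (Or.inr hc)
            · exact Or.inr hc
          exact evLim_of_not this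
    rw [this]
    exact (key 0).union (((key 0).union (key 1)).union (key 2)).compl
  · have : evLim ⁻¹' {c} = {u | ∀ᶠ n in atTop, u n = c} := by
      ext u
      simp only [mem_preimage, mem_singleton_iff, mem_ofPred_eq]
      constructor
      · intro h
        by_cases h' : ∃ c, ∀ᶠ n in atTop, u n = c
        · obtain ⟨d, hd⟩ := h'
          rw [evLim_eq hd] at h
          rwa [h] at hd
        · rw [evLim_of_not h'] at h
          exact absurd h.symm hc
      · intro h
        exact evLim_eq h
    rw [this]
    exact key c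

/-- The two random endpoints attached to a coordinate. -/
def ends : Crd → (Om → Fin 3) × (Om → Fin 3)
  | Crd.base c => (fun _ => c, fun _ => c)
  | Crd.mk a s b t =>
      open Classical in
      (fun w => evLim fun n => if w (a n) < s n then (ends (a n)).2 w else (ends (a n)).1 w,
       fun w => evLim fun n => if w (b n) < t n then (ends (b n)).2 w else (ends (b n)).1 w)

/-- coordinates strictly below a given one -/
def below : Crd → Set Crd
  | Crd.base _ => ∅
  | Crd.mk a _ b _ => (⋃ n, insert (a n) (below (a n))) ∪ (⋃ n, insert (b n) (below (b n)))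

lemma measurable_ite_lt {X : Type*} [MeasurableSpace X] (f g : Om → X) (hf : Measurable f)
    (hg : Measurable g) (j : Crd) (s : ℝ) :
    Measurable (fun w : Om => open Classical in if w j < s then g w else f w) := by
  classical
  refine Measurable.ite ?_ hg hf
  exact measurableSet_lt (measurable_pi_apply j) measurable_const

lemma measurable_ends (j : Crd) : Measurable (ends j).1 ∧ Measurable (ends j).2 := by
  classical
  induction j with
  | base c => exact ⟨measurable_const, measurable_const⟩
  | mk a s b t iha ihb =>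
    constructor
    · show Measurable (fun w => evLim fun n => if w (a n) < s n then (ends (a n)).2 w else (ends (a n)).1 w)
      refine measurable_evLim.comp (measurable_pi_iff.2 fun n => ?_)
      exact measurable_ite_lt _ _ (iha n).1 (iha n).2 _ _
    · show Measurable (fun w => evLim fun n => if w (b n) < t n then (ends (b n)).2 w else (ends (b n)).1 w)
      refine measurable_evLim.comp (measurable_pi_iff.2 fun n => ?_)
      exact measurable_ite_lt _ _ (ihb n).1 (ihb n).2 _ _

lemma below_trans {i j k : Crd} (h1 : i ∈ below j) (h2 : j ∈ below k) : i ∈ below k := by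
  induction k with
  | base c => exact absurd h2 (by simp [below])
  | mk a s b t iha ihb =>
    simp only [below, mem_union, mem_iUnion, mem_insert_iff] at h2 ⊢
    rcases h2 with ⟨n, h2⟩ | ⟨n, h2⟩
    · left
      refine ⟨n, Or.inr ?_⟩
      rcases h2 with h2 | h2
      · rwa [h2] at h1
      · exact iha n h2
    · right
      refine ⟨n, Or.inr ?_⟩
      rcases h2 with h2 | h2
      · rwa [h2] at h1
      · exact ihb n h2

lemma acc_below (j : Crd) : Acc (fun i j : Crd => i ∈ below j) j := by
  induction j with
  | base c => exact ⟨_, fun i hi => absurd hi (by simp [below])⟩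
  | mk a s b t iha ihb =>
    refine ⟨_, fun i hi => ?_⟩
    simp only [below, mem_union, mem_iUnion, mem_insert_iff] at hi
    rcases hi with ⟨n, h | h⟩ | ⟨n, h | h⟩
    · rw [h]; exact iha n
    · exact (iha n).inv h
    · rw [h]; exact ihb n
    · exact (ihb n).inv h

lemma wf_below : WellFounded (fun i j : Crd => i ∈ below j) := ⟨acc_below⟩

lemma not_mem_below_self (j : Crd) : j ∉ below j := by
  intro h
  exact wf_below.asymmetric j j h h

/-- `f` depends only on the coordinates in `S` -/
def Dep (f : Om → Fin 3) (S : Set Crd) : Prop := ∀ w w' : Om, (∀ i ∈ S, w i = w' i) → f w = f w'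

lemma Dep.mono {f : Om → Fin 3} {S T : Set Crd} (h : Dep f S) (hST : S ⊆ T) : Dep f T :=
  fun w w' hw => h w w' fun i hi => hw i (hST hi)

lemma dep_ends (j : Crd) : Dep (ends j).1 (below j) ∧ Dep (ends j).2 (below j) := by
  classical
  induction j with
  | base c => exact ⟨fun _ _ _ => rfl, fun _ _ _ => rfl⟩
  | mk a s b t iha ihb =>
    constructor
    · intro w w' h
      show evLim (fun n => if w (a n) < s n then (ends (a n)).2 w else (ends (a n)).1 w) =
        evLim (fun n => if w' (a n) < s n then (ends (a n)).2 w' else (ends (a n)).1 w')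
      congr 1
      funext n
      have h1 : w (a n) = w' (a n) := h _ (by
        simp only [below, mem_union, mem_iUnion, mem_insert_iff]
        exact Or.inl ⟨n, Or.inl rfl⟩)
      have h2 : ∀ i ∈ below (a n), w i = w' i := fun i hi => h _ (by
        simp only [below, mem_union, mem_iUnion, mem_insert_iff]
        exact Or.inl ⟨n, Or.inr hi⟩)
      rw [h1, (iha n).1 w w' h2, (iha n).2 w w' h2]
    · intro w w' h
      show evLim (fun n => if w (b n) < t n then (ends (b n)).2 w else (ends (b n)).1 w) =
        evLim (fun n => if w' (b n) < t n then (ends (b n)).2 w' else (ends (b n)).1 w')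
      congr 1
      funext n
      have h1 : w (b n) = w' (b n) := h _ (by
        simp only [below, mem_union, mem_iUnion, mem_insert_iff]
        exact Or.inr ⟨n, Or.inl rfl⟩)
      have h2 : ∀ i ∈ below (b n), w i = w' i := fun i hi => h _ (by
        simp only [below, mem_union, mem_iUnion, mem_insert_iff]
        exact Or.inr ⟨n, Or.inr hi⟩)
      rw [h1, (ihb n).1 w w' h2, (ihb n).2 w w' h2]

/-- Resampling: keep the coordinates of `p.1` in `S`, take the other ones from `p.2`. -/
def merge (S : Set Crd) (p : Om × Om) : Om :=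
  fun i => open Classical in if i ∈ S then p.1 i else p.2 i

lemma merge_of_mem {S : Set Crd} {i : Crd} (h : i ∈ S) (p : Om × Om) : merge S p i = p.1 i := by
  simp [merge, h]

lemma merge_of_notMem {S : Set Crd} {i : Crd} (h : i ∉ S) (p : Om × Om) : merge S p i = p.2 i := by
  simp [merge, h]

lemma measurable_merge (S : Set Crd) : Measurable (merge S) := by
  refine measurable_pi_iff.2 fun i => ?_
  by_cases h : i ∈ S
  · simp only [merge_of_mem h]; fun_prop
  · simp only [merge_of_notMem h]; fun_prop

lemma mp_merge (S : Set Crd) : MeasurePreserving (merge S) (mu.prod mu) mu := by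
  classical
  refine ⟨measurable_merge S, ?_⟩
  refine Measure.eq_infinitePi _ fun s t ht => ?_
  rw [Measure.map_apply (measurable_merge S) (MeasurableSet.pi s.countable_toSet fun i _ => ht i)]
  have : merge S ⁻¹' (Set.pi s t) =
      (Set.pi (s.filter (· ∈ S)) t) ×ˢ (Set.pi (s.filter (· ∉ S)) t) := by
    ext ⟨w, w'⟩
    simp only [mem_preimage, Set.mem_pi, mem_prod, Finset.mem_coe, Finset.mem_filter]
    constructor
    · intro h
      refine ⟨fun i hi => ?_, fun i hi => ?_⟩
      · have := h i hi.1
        rwa [merge_of_mem hi.2] at this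
      · have := h i hi.1
        rwa [merge_of_notMem hi.2] at this
    · rintro ⟨h1, h2⟩ i hi
      by_cases hS : i ∈ S
      · rw [merge_of_mem hS]; exact h1 i ⟨hi, hS⟩
      · rw [merge_of_notMem hS]; exact h2 i ⟨hi, hS⟩
  rw [this, Measure.prod_prod]
  unfold mu
  rw [Measure.infinitePi_pi _ (fun i _ => ht i), Measure.infinitePi_pi _ (fun i _ => ht i),
    Finset.prod_filter_mul_prod_filter_not]

/-- a set of the sample space depends only on the coordinates in `S` -/
def DepS (E : Set Om) (S : Set Crd) : Prop :=
  ∀ w w' : Om, (∀ i ∈ S, w i = w' i) → (w ∈ E ↔ w' ∈ E)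

lemma mu_inter {T E : Set Om} {S : Set Crd} (hT : DepS T S) (hE : DepS E Sᶜ)
    (mT : MeasurableSet T) (mE : MeasurableSet E) : mu (T ∩ E) = mu T * mu E := by
  rw [← (mp_merge S).measure_preimage (mT.inter mE).nullMeasurableSet, ← Measure.prod_prod]
  congr 1
  ext ⟨w, w'⟩
  simp only [mem_preimage, mem_inter_iff, mem_prod]
  rw [hT (merge S (w, w')) w (fun i hi => merge_of_mem hi _),
    hE (merge S (w, w')) w' (fun i hi => merge_of_notMem hi _)]

lemma mu_lt (j : Crd) {s : ℝ} (_h0 : 0 ≤ s) (h1 : s ≤ 1) : mu {w | w j < s} = ENNReal.ofReal s := by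
  have h := measurePreserving_eval_infinitePi (fun _ : Crd => unif) j
  have h2 := h.measure_preimage (measurableSet_Iio (a := s)).nullMeasurableSet
  change mu _ = _ at h2
  have h3 : (Function.eval j ⁻¹' Iio s : Set Om) = {w | w j < s} := rfl
  rw [h3] at h2
  rw [h2, unif, Measure.restrict_apply measurableSet_Iio]
  have : Iio s ∩ Icc 0 1 = Ico 0 s := by
    ext x
    simp only [mem_inter_iff, mem_Iio, mem_Icc, mem_Ico]
    constructor
    · rintro ⟨a, b, c⟩; exact ⟨b, a⟩
    · rintro ⟨a, b⟩; exact ⟨b, a, by linarith⟩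
  rw [this]
  simp

/-- Random elements of the three point set. -/
structure Pt : Type where
  val : Om → Fin 3
  property : Measurable val

lemma measurableSet_ne (f g : Pt) : MeasurableSet {w | f.1 w ≠ g.1 w} :=
  (measurableSet_eq_fun f.2 g.2).compl

instance : PseudoMetricSpace Pt where
  dist f g := mu.real {w | f.1 w ≠ g.1 w}
  dist_self f := by simp
  dist_comm f g := by simp only [ne_comm]
  dist_triangle f g h := by
    refine (measureReal_mono ?_ (by finiteness)).trans (measureReal_union_le _ _)
    intro w hw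
    simp only [mem_union, mem_ofPred_eq] at hw ⊢
    by_contra hcon
    rw [not_or, not_not, not_not] at hcon
    exact hw (hcon.1.trans hcon.2)

lemma dist_def (f g : Pt) : dist f g = mu.real {w | f.1 w ≠ g.1 w} := rfl

lemma edist_def (f g : Pt) : edist f g = mu {w | f.1 w ≠ g.1 w} := by
  rw [edist_dist, dist_def, ofReal_measureReal]

/-- constants -/
def cst (c : Fin 3) : Pt := ⟨fun _ => c, measurable_const⟩

def srcP (j : Crd) : Pt := ⟨(ends j).1, (measurable_ends j).1⟩
def tgtP (j : Crd) : Pt := ⟨(ends j).2, (measurable_ends j).2⟩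

/-- the point at parameter `s` of the segment attached to the coordinate `j` -/
def edge (j : Crd) (s : ℝ) : Pt :=
  ⟨fun w => open Classical in if w j < s then (ends j).2 w else (ends j).1 w,
    measurable_ite_lt _ _ (measurable_ends j).1 (measurable_ends j).2 j s⟩

lemma edge_of_lt {j : Crd} {s : ℝ} {w : Om} (h : w j < s) : (edge j s).1 w = (tgtP j).1 w := by
  simp [edge, h, tgtP]

lemma edge_of_not_lt {j : Crd} {s : ℝ} {w : Om} (h : ¬ w j < s) :
    (edge j s).1 w = (srcP j).1 w := by
  simp only [edge, h, srcP, if_false]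

lemma dep_edge (j : Crd) (s : ℝ) : Dep (edge j s).1 (insert j (below j)) := by
  intro w w' h
  have h1 : w j = w' j := h j (mem_insert _ _)
  have h2 : ∀ i ∈ below j, w i = w' i := fun i hi => h i (mem_insert_of_mem _ hi)
  by_cases hw : w j < s
  · rw [edge_of_lt hw, edge_of_lt (h1 ▸ hw)]
    exact (dep_ends j).2 w w' h2
  · rw [edge_of_not_lt hw, edge_of_not_lt (h1 ▸ hw)]
    exact (dep_ends j).1 w w' h2

lemma depS_ne {f g : Pt} {S : Set Crd} (hf : Dep f.1 S) (hg : Dep g.1 S) :
    DepS {w | f.1 w ≠ g.1 w} S := by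
  intro w w' h
  simp only [mem_ofPred_eq]
  rw [hf w w' h, hg w w' h]

lemma dep_srcP (j : Crd) : Dep (srcP j).1 ({j} : Set Crd)ᶜ :=
  (dep_ends j).1.mono fun i hi => by
    simp only [mem_compl_iff, mem_singleton_iff]
    rintro rfl
    exact not_mem_below_self _ hi

lemma dep_tgtP (j : Crd) : Dep (tgtP j).1 ({j} : Set Crd)ᶜ :=
  (dep_ends j).2.mono fun i hi => by
    simp only [mem_compl_iff, mem_singleton_iff]
    rintro rfl
    exact not_mem_below_self _ hi

lemma depS_lt (j : Crd) (s : ℝ) : DepS {w | w j < s} {j} := by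
  intro w w' h
  simp only [mem_ofPred_eq]
  rw [h j rfl]

lemma measurableSet_lt' (j : Crd) (s : ℝ) : MeasurableSet {w : Om | w j < s} :=
  measurableSet_lt (measurable_pi_apply j) measurable_const

lemma DepS.compl {E : Set Om} {S : Set Crd} (h : DepS E S) : DepS Eᶜ S := by
  intro w w' hw
  simp only [mem_compl_iff]
  rw [h w w' hw]

lemma mu_real_lt (j : Crd) {s : ℝ} (h0 : 0 ≤ s) (h1 : s ≤ 1) : mu.real {w | w j < s} = s := by
  rw [measureReal_def, mu_lt j h0 h1, ENNReal.toReal_ofReal h0]

lemma mu_real_inter {T E : Set Om} {S : Set Crd} (hT : DepS T S) (hE : DepS E Sᶜ)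
    (mT : MeasurableSet T) (mE : MeasurableSet E) :
    mu.real (T ∩ E) = mu.real T * mu.real E := by
  rw [measureReal_def, mu_inter hT hE mT mE, ENNReal.toReal_mul]; rfl

/-- the distance to a point of a fresh segment is affine -/
lemma dist_edge (j : Crd) {s : ℝ} (h0 : 0 ≤ s) (h1 : s ≤ 1) (g : Pt) (hg : Dep g.1 ({j} : Set Crd)ᶜ) :
    dist (edge j s) g = s * dist (tgtP j) g + (1 - s) * dist (srcP j) g := by
  have key : {w | (edge j s).1 w ≠ g.1 w} =
      ({w | w j < s} ∩ {w | (tgtP j).1 w ≠ g.1 w}) ∪
      ({w | w j < s}ᶜ ∩ {w | (srcP j).1 w ≠ g.1 w}) := by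
    ext w
    simp only [mem_union, mem_inter_iff, mem_ofPred_eq, mem_compl_iff]
    by_cases hw : w j < s
    · rw [edge_of_lt hw]; simp [hw]
    · rw [edge_of_not_lt hw]; simp [hw]
  rw [dist_def, key, measureReal_union, mu_real_inter (depS_lt j s) (depS_ne (dep_tgtP j) hg)
    (measurableSet_lt' j s) (measurableSet_ne _ _), mu_real_inter (depS_lt j s).compl
    (depS_ne (dep_srcP j) hg) (measurableSet_lt' j s).compl (measurableSet_ne _ _),
    mu_real_lt j h0 h1, measureReal_compl (measurableSet_lt' j s), mu_real_lt j h0 h1]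
  · simp [dist_def]
  · refine Set.disjoint_left.2 fun w hw hw' => hw'.1 hw.1
  · exact (measurableSet_lt' j s).compl.inter (measurableSet_ne _ _)

lemma dist_edge_edge_aux (j : Crd) {s t : ℝ} (h0 : 0 ≤ s) (hst : s ≤ t) (h1 : t ≤ 1) :
    dist (edge j s) (edge j t) = (t - s) * dist (srcP j) (tgtP j) := by
  have key : {w | (edge j s).1 w ≠ (edge j t).1 w} =
      ({w | w j < t} \ {w | w j < s}) ∩ {w | (srcP j).1 w ≠ (tgtP j).1 w} := by
    ext w
    simp only [mem_inter_iff, mem_ofPred_eq, Set.mem_sdiff]
    by_cases hw : w j < s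
    · have hw' : w j < t := lt_of_lt_of_le hw hst
      rw [edge_of_lt hw, edge_of_lt hw']
      simp [hw]
    · by_cases hw' : w j < t
      · rw [edge_of_not_lt hw, edge_of_lt hw']; simp [hw, hw']
      · rw [edge_of_not_lt hw, edge_of_not_lt hw']; simp [hw']
  have hd : DepS ({w | w j < t} \ {w | w j < s}) {j} := by
    intro w w' h
    simp only [Set.mem_sdiff]
    rw [depS_lt j t w w' h, depS_lt j s w w' h]
  rw [dist_def, key, mu_real_inter hd (depS_ne (dep_srcP j) (dep_tgtP j))
    ((measurableSet_lt' j t).diff (measurableSet_lt' j s)) (measurableSet_ne _ _),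
    measureReal_sdiff (show {w : Om | w j < s} ⊆ {w : Om | w j < t} from
      fun w hw => lt_of_lt_of_le hw hst) (measurableSet_lt' j s),
    mu_real_lt j h0 (hst.trans h1), mu_real_lt j (h0.trans hst) h1, dist_def]

lemma dist_edge_edge (j : Crd) {s t : ℝ} (hs : s ∈ Icc (0:ℝ) 1) (ht : t ∈ Icc (0:ℝ) 1) :
    dist (edge j s) (edge j t) = |s - t| * dist (srcP j) (tgtP j) := by
  rcases le_total s t with h | h
  · rw [dist_edge_edge_aux j hs.1 h ht.2, abs_of_nonpos (by linarith)]; ring
  · rw [dist_comm, dist_edge_edge_aux j ht.1 h hs.2, abs_of_nonneg (by linarith)]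

end

end Pool.Agent.Lib.MP_b098a7_gt
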