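import Pool.Agent.Lib.MP_b098a7_gt.Rand

set_option autoImplicit false

open MeasureTheory Set Filter Topology
open scoped ENNReal

namespace Pool.Agent.Lib.MP_b098a7_gt

noncomputable section

/-- pointwise eventual value of a sequence of random elements -/
def limP (u : ℕ → Pt) : Pt :=
  ⟨fun w => evLim fun n => (u n).1 w, measurable_evLim.comp (measurable_pi_iff.2 fun n => (u n).2)⟩

lemma dist_eq_zero_iff (f g : Pt) : dist f g = 0 ↔ ∀ᵐ w ∂mu, f.1 w = g.1 w := by
  rw [dist_def, measureReal_eq_zero_iff, ae_iff]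

lemma limP_ae {u : ℕ → Pt} {f : Pt} (h : ∑' n, edist (u n) f ≠ ∞) :
    ∀ᵐ w ∂mu, (limP u).1 w = f.1 w := by
  have h1 : ∑' n, mu {w | (u n).1 w ≠ f.1 w} ≠ ∞ := by simpa only [edist_def] using h
  filter_upwards [ae_eventually_notMem h1] with w hw
  exact evLim_eq (hw.mono fun n hn => by simpa using hn)

lemma eventually_const {X : Type*} {u : ℕ → X} {N : ℕ} (h : ∀ n, N ≤ n → u n = u (n + 1)) :
    ∀ n, N ≤ n → u n = u N := by
  intro n hn
  induction n, hn using Nat.le_induction with
  | base => rfl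
  | succ n hn ih => rw [← h n hn, ih]

lemma tsum_half (n : ℕ) : ∑' m : ℕ, ((2:ℝ≥0∞)⁻¹) ^ (n + m) = ((2:ℝ≥0∞)⁻¹) ^ n * 2 := by
  simp_rw [pow_add]
  rw [ENNReal.tsum_mul_left, ENNReal.tsum_geometric, ENNReal.one_sub_inv_two, inv_inv]

instance : CompleteSpace Pt := by
  refine EMetric.complete_of_convergent_controlled_sequences (fun n => ((2:ℝ≥0∞)⁻¹) ^ n)
    (fun n => ENNReal.pow_pos (by simp) n) fun u hu => ⟨limP u, ?_⟩
  have h1 : ∀ n, mu {w | (u n).1 w ≠ (u (n+1)).1 w} ≤ ((2:ℝ≥0∞)⁻¹) ^ n := by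
    intro n
    rw [← edist_def]
    exact (hu n n (n+1) le_rfl (Nat.le_succ n)).le
  have h2 : ∑' n, mu {w | (u n).1 w ≠ (u (n+1)).1 w} ≠ ∞ := by
    refine ne_top_of_le_ne_top ?_ (ENNReal.tsum_le_tsum h1)
    have := tsum_half 0
    simp only [zero_add, pow_zero, one_mul] at this
    rw [this]
    simp
  have h3 : ∀ᵐ w ∂mu, ∀ᶠ n in atTop, (u n).1 w = (limP u).1 w := by
    filter_upwards [ae_eventually_notMem h2] with w hw
    obtain ⟨N, hN⟩ := eventually_atTop.1 hw
    have h4 : ∀ n, N ≤ n → (u n).1 w = (u N).1 w :=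
      eventually_const (u := fun n => (u n).1 w) fun n hn => by simpa using hN n hn
    have h5 : ∀ᶠ n in atTop, (u n).1 w = (u N).1 w := eventually_atTop.2 ⟨N, h4⟩
    have h6 : (limP u).1 w = (u N).1 w := evLim_eq h5
    rw [h6]; exact h5
  have h4 : ∀ n, edist (u n) (limP u) ≤ ((2:ℝ≥0∞)⁻¹) ^ n * 2 := by
    intro n
    rw [edist_def, ← tsum_half n]
    refine le_trans ?_ (ENNReal.tsum_le_tsum fun m => h1 (n + m))
    refine le_trans ?_ (measure_iUnion_le _)
    refine measure_mono_ae ?_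
    filter_upwards [h3] with w hw hne
    obtain ⟨N, hN⟩ := eventually_atTop.1 hw
    by_contra hcon
    have hcon' : ¬ (w ∈ ⋃ m, {w | (u (n + m)).1 w ≠ (u (n + m + 1)).1 w}) := hcon
    simp only [mem_iUnion, mem_ofPred_eq, not_exists, not_not] at hcon'
    have h5 := eventually_const (u := fun m => (u m).1 w) (N := n) fun m hm => by
      obtain ⟨k, rfl⟩ := Nat.exists_eq_add_of_le hm
      exact hcon' k
    apply hne
    rw [← h5 (max n N) (le_max_left _ _)]
    exact hN _ (le_max_right _ _)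
  rw [tendsto_iff_edist_tendsto_0]
  have h5 : Tendsto (fun n : ℕ => ((2:ℝ≥0∞)⁻¹) ^ n * 2) atTop (𝓝 0) := by
    have := ENNReal.Tendsto.mul_const (b := 2)
      (ENNReal.tendsto_pow_atTop_nhds_zero_of_lt_one (r := (2:ℝ≥0∞)⁻¹) (by simp)) (Or.inr (by simp))
    simpa using this
  exact tendsto_of_tendsto_of_tendsto_of_le_of_le tendsto_const_nhds h5 (fun _ => zero_le) h4

/-- degenerate triples of random elements -/
lemma deg_iff (f g h : Pt) :
    dist f g + dist g h = dist f h ↔ ∀ᵐ w ∂mu, g.1 w = f.1 w ∨ g.1 w = h.1 w := by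
  have hU := measurableSet_ne f g
  have hV := measurableSet_ne g h
  have h1 : mu.real ({w | f.1 w ≠ g.1 w} ∪ {w | g.1 w ≠ h.1 w}) +
      mu.real ({w | f.1 w ≠ g.1 w} ∩ {w | g.1 w ≠ h.1 w}) = dist f g + dist g h := by
    rw [dist_def, dist_def]
    exact measureReal_union_add_inter hV
  have h2 : (∀ᵐ w ∂mu, g.1 w = f.1 w ∨ g.1 w = h.1 w) ↔
      mu.real ({w | f.1 w ≠ g.1 w} ∩ {w | g.1 w ≠ h.1 w}) = 0 := by
    rw [measureReal_eq_zero_iff, ae_iff]
    have : {w | ¬ (g.1 w = f.1 w ∨ g.1 w = h.1 w)} =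
        {w | f.1 w ≠ g.1 w} ∩ {w | g.1 w ≠ h.1 w} := by
      ext w
      simp only [mem_inter_iff, mem_ofPred_eq, not_or, ne_eq, eq_comm]
    rw [this]
  rw [h2]
  constructor
  · intro h3
    have h4 : dist f h ≤ mu.real ({w | f.1 w ≠ g.1 w} ∪ {w | g.1 w ≠ h.1 w}) := by
      rw [dist_def]
      refine measureReal_mono ?_ (by finiteness)
      intro w hw
      simp only [mem_union, mem_ofPred_eq] at hw ⊢
      by_contra hcon
      rw [not_or, not_not, not_not] at hcon
      exact hw (hcon.1.trans hcon.2)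
    have h5 : 0 ≤ mu.real ({w | f.1 w ≠ g.1 w} ∩ {w | g.1 w ≠ h.1 w}) := measureReal_nonneg
    linarith
  · intro h3
    have h4 : mu.real ({w | f.1 w ≠ g.1 w} ∪ {w | g.1 w ≠ h.1 w}) ≤
        mu.real {w | f.1 w ≠ h.1 w} +
        mu.real ({w | f.1 w ≠ g.1 w} ∩ {w | g.1 w ≠ h.1 w}) := by
      refine (measureReal_mono ?_ (by finiteness)).trans (measureReal_union_le _ _)
      intro w hw
      simp only [mem_union, mem_ofPred_eq, mem_inter_iff] at hw ⊢
      by_contra hcon
      rw [not_or, not_and_or, not_not, not_not, not_not] at hcon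
      obtain ⟨ha, hb⟩ := hcon
      rcases hb with hb | hb
      · rcases hw with hw | hw
        · exact hw hb
        · exact hw (by rw [← hb]; exact ha)
      · rcases hw with hw | hw
        · exact hw (by rw [hb]; exact ha)
        · exact hw hb
    rw [← dist_def] at h4
    have := dist_triangle f g h
    linarith

/-- sections: the coordinates outside `S` are frozen to the values of `w'` -/
def sec (S : Set Crd) (f : Pt) (w' : Om) : Pt :=
  ⟨fun w => f.1 (merge Sᶜ (w', w)), f.2.comp ((measurable_merge _).comp measurable_prodMk_left)⟩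

lemma measurableSet_sec_ne (S : Set Crd) (f g : Pt) :
    MeasurableSet {p : Om × Om | f.1 (merge Sᶜ p) ≠ g.1 (merge Sᶜ p)} :=
  (measurable_merge Sᶜ) (measurableSet_ne f g)

lemma measurable_edist_sec (S : Set Crd) (f g : Pt) :
    Measurable fun w' => edist (sec S f w') (sec S g w') := by
  simp only [edist_def]
  exact measurable_measure_prodMk_left (measurableSet_sec_ne S f g)

lemma lintegral_edist_sec (S : Set Crd) (f g : Pt) :
    ∫⁻ w', edist (sec S f w') (sec S g w') ∂mu = edist f g := by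
  simp only [edist_def]
  rw [← (mp_merge Sᶜ).measure_preimage (measurableSet_ne f g).nullMeasurableSet,
    Measure.prod_apply (measurable_merge Sᶜ (measurableSet_ne f g))]
  rfl

lemma Pt.ext' {f g : Pt} (h : ∀ w, f.1 w = g.1 w) : f = g := by
  cases f; cases g
  congr
  exact funext h

lemma sec_of_dep {S : Set Crd} {f : Pt} (hf : Dep f.1 S) (w' : Om) : sec S f w' = f := by
  apply Pt.ext'
  intro w
  exact hf _ _ fun i hi => merge_of_notMem (by simpa using hi) _

lemma sec_edge_of_notMem {S : Set Crd} {j : Crd} (hj : j ∉ S) (s : ℝ) (w' : Om) :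
    sec S (edge j s) w' = sec S (srcP j) w' ∨ sec S (edge j s) w' = sec S (tgtP j) w' := by
  by_cases h : w' j < s
  · right
    apply Pt.ext'
    intro w
    apply edge_of_lt
    rw [merge_of_mem (by simpa using hj)]
    exact h
  · left
    apply Pt.ext'
    intro w
    apply edge_of_not_lt
    rw [merge_of_mem (by simpa using hj)]
    exact h

lemma deg_sec {S : Set Crd} {f g h : Pt} (H : dist f g + dist g h = dist f h) :
    ∀ᵐ w' ∂mu, dist (sec S f w') (sec S g w') + dist (sec S g w') (sec S h w') =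
      dist (sec S f w') (sec S h w') := by
  rw [deg_iff] at H
  have h1 := (mp_merge Sᶜ).quasiMeasurePreserving.ae H
  have h2 := Measure.ae_ae_of_ae_prod h1
  filter_upwards [h2] with w' hw'
  rw [deg_iff]
  exact hw'

end

end Pool.Agent.Lib.MP_b098a7_gt
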