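import Pool.Agent.Lib.MP_b098a7_gt.Sect

set_option autoImplicit false

open MeasureTheory Set Filter Topology
open scoped ENNReal

namespace Pool.Agent.Lib.MP_b098a7_gt

noncomputable section

/-- The metric space of classes of random elements. -/
abbrev MM : Type := SeparationQuotient Pt

def qq : Pt → MM := SeparationQuotient.mk

lemma dist_qq (f g : Pt) : dist (qq f) (qq g) = dist f g := SeparationQuotient.dist_mk f g

lemma edist_qq (f g : Pt) : edist (qq f) (qq g) = edist f g := SeparationQuotient.edist_mk f g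

lemma qq_eq_iff (f g : Pt) : qq f = qq g ↔ dist f g = 0 := by
  rw [← dist_eq_zero (x := qq f), dist_qq]

lemma exists_rep (x : MM) : ∃ f, qq f = x := SeparationQuotient.surjective_mk x

lemma isometry_qq : Isometry qq := fun f g => edist_qq f g

def ed (j : Crd) (s : ℝ) : MM := qq (edge j s)
def cs (c : Fin 3) : MM := qq (cst c)
def sr (j : Crd) : MM := qq (srcP j)
def tg (j : Crd) : MM := qq (tgtP j)

/-- the segment attached to a coordinate -/
def EE (j : Crd) : Set MM := ed j '' Icc 0 1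

/-- generating set -/
def Gen (A : Set Crd) : Set MM := range cs ∪ ⋃ j ∈ A, EE j

/-- closed set generated by the active coordinates -/
def XS (A : Set Crd) : Set MM := closure (Gen A)

lemma Gen_mono {A B : Set Crd} (h : A ⊆ B) : Gen A ⊆ Gen B :=
  union_subset_union_right _ (biUnion_subset_biUnion_left h)

lemma XS_mono {A B : Set Crd} (h : A ⊆ B) : XS A ⊆ XS B := closure_mono (Gen_mono h)

lemma Gen_subset_XS (A : Set Crd) : Gen A ⊆ XS A := subset_closure

lemma EE_subset_Gen {A : Set Crd} {j : Crd} (h : j ∈ A) : EE j ⊆ Gen A := fun _ hx =>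
  Or.inr (mem_biUnion h hx)

lemma cs_mem_Gen (A : Set Crd) (c : Fin 3) : cs c ∈ Gen A := Or.inl ⟨c, rfl⟩

lemma isClosed_XS (A : Set Crd) : IsClosed (XS A) := isClosed_closure

lemma ed_mem_EE {j : Crd} {s : ℝ} (hs : s ∈ Icc (0:ℝ) 1) : ed j s ∈ EE j := ⟨s, hs, rfl⟩

/-- affine distance formula -/
lemma dist_ed_of_dep (j : Crd) {s : ℝ} (hs : s ∈ Icc (0:ℝ) 1) (g : Pt)
    (hg : Dep g.1 ({j} : Set Crd)ᶜ) :
    dist (ed j s) (qq g) = s * dist (tg j) (qq g) + (1 - s) * dist (sr j) (qq g) := by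
  simp only [ed, tg, sr, dist_qq]
  exact dist_edge j hs.1 hs.2 g hg

lemma ed_zero (j : Crd) : ed j 0 = sr j := by
  rw [← dist_eq_zero]
  have := dist_ed_of_dep j (s := 0) (by simp) (srcP j) (dep_srcP j)
  change dist (ed j 0) (sr j) = _ * dist (tg j) (sr j) + _ * dist (sr j) (sr j) at this
  simpa using this

lemma ed_one (j : Crd) : ed j 1 = tg j := by
  rw [← dist_eq_zero]
  have := dist_ed_of_dep j (s := 1) (by simp) (tgtP j) (dep_tgtP j)
  change dist (ed j 1) (tg j) = _ * dist (tg j) (tg j) + _ * dist (sr j) (tg j) at this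
  simpa using this

lemma dist_ed_ed (j : Crd) {s t : ℝ} (hs : s ∈ Icc (0:ℝ) 1) (ht : t ∈ Icc (0:ℝ) 1) :
    dist (ed j s) (ed j t) = |s - t| * dist (sr j) (tg j) := by
  simp only [ed, sr, tg, dist_qq]
  exact dist_edge_edge j hs ht

lemma continuousOn_ed (j : Crd) : ContinuousOn (ed j) (Icc 0 1) := by
  have : LipschitzOnWith (Real.toNNReal (dist (sr j) (tg j))) (ed j) (Icc 0 1) := by
    refine LipschitzOnWith.of_dist_le_mul fun s hs t ht => ?_
    rw [dist_ed_ed j hs ht, Real.coe_toNNReal _ dist_nonneg, Real.dist_eq, mul_comm]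
  exact this.continuousOn

lemma isCompact_EE (j : Crd) : IsCompact (EE j) := isCompact_Icc.image_of_continuousOn (continuousOn_ed j)

lemma isClosed_EE (j : Crd) : IsClosed (EE j) := (isCompact_EE j).isClosed

/-- `A` is closed under passing below -/
def Down (A : Set Crd) : Prop := ∀ j ∈ A, below j ⊆ A

/-- the endpoints of `j` are generated strictly below `j` -/
def WFc (j : Crd) : Prop := sr j ∈ XS (below j) ∧ tg j ∈ XS (below j)

lemma down_below (j : Crd) : Down (below j) := fun _ hi _ hk => below_trans hk hi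

lemma down_insert_below (j : Crd) : Down (insert j (below j)) := by
  intro i hi k hk
  rcases hi with rfl | hi
  · exact Or.inr hk
  · exact Or.inr (below_trans hk hi)

lemma dist_ed_of_mem {A : Set Crd} (hA : Down A) {j : Crd} (hj : j ∉ A) {s : ℝ}
    (hs : s ∈ Icc (0:ℝ) 1) {x : MM} (hx : x ∈ XS A) :
    dist (ed j s) x = s * dist (ed j 1) x + (1 - s) * dist (ed j 0) x := by
  rw [ed_zero, ed_one]
  have hc : IsClosed {x : MM | dist (ed j s) x = s * dist (tg j) x + (1 - s) * dist (sr j) x} :=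
    isClosed_eq (by fun_prop) (by fun_prop)
  have hsub : Gen A ⊆ {x : MM | dist (ed j s) x = s * dist (tg j) x + (1 - s) * dist (sr j) x} := by
    rintro y (⟨c, rfl⟩ | hy)
    · exact dist_ed_of_dep j hs (cst c) (fun _ _ _ => rfl)
    · simp only [mem_iUnion] at hy
      obtain ⟨i, hi, t, ht, rfl⟩ := hy
      refine dist_ed_of_dep j hs (edge i t) ((dep_edge i t).mono ?_)
      intro k hk
      simp only [mem_compl_iff, mem_singleton_iff]
      rintro rfl
      rcases hk with rfl | hk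
      · exact hj hi
      · exact hj (hA i hi hk)
  exact closure_minimal hsub hc hx

/-- the set of random elements almost all of whose sections lie in `XS S` -/
def SecSet (S : Set Crd) : Set Pt := {f | ∀ᵐ w' ∂mu, qq (sec S f w') ∈ XS S}

lemma mem_SecSet_iff {S : Set Crd} {f : Pt} :
    f ∈ SecSet S ↔ ∀ᵐ w' ∂mu, qq (sec S f w') ∈ XS S := Iff.rfl

lemma isClosed_SecSet (S : Set Crd) : IsClosed (SecSet S) := by
  refine isClosed_of_closure_subset fun f hf => ?_
  have h1 : ∀ n : ℕ, ∃ g ∈ SecSet S, edist g f ≤ ((2:ℝ≥0∞)⁻¹) ^ n := by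
    intro n
    obtain ⟨g, hg, hd⟩ := EMetric.mem_closure_iff.1 hf (((2:ℝ≥0∞)⁻¹) ^ n)
      (ENNReal.pow_pos (by simp) n)
    exact ⟨g, hg, by rw [edist_comm]; exact hd.le⟩
  choose g hg hd using h1
  have h2 : ∫⁻ w', ∑' n, edist (sec S (g n) w') (sec S f w') ∂mu ≠ ∞ := by
    rw [lintegral_tsum fun n => (measurable_edist_sec S (g n) f).aemeasurable]
    simp_rw [lintegral_edist_sec]
    refine ne_top_of_le_ne_top ?_ (ENNReal.tsum_le_tsum hd)
    have := tsum_half 0
    simp only [zero_add, pow_zero, one_mul] at this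
    rw [this]
    simp
  have h3 := ae_lt_top' (AEMeasurable.tsum fun n => (measurable_edist_sec S (g n) f).aemeasurable) h2
  have h4 : ∀ᵐ w' ∂mu, ∀ n, qq (sec S (g n) w') ∈ XS S := ae_all_iff.2 hg
  filter_upwards [h3, h4] with w' h5 h6
  refine (isClosed_XS S).mem_of_tendsto (f := fun n => qq (sec S (g n) w')) (b := atTop) ?_
    (Eventually.of_forall h6)
  rw [tendsto_iff_edist_tendsto_0]
  simp only [edist_qq]
  exact ENNReal.tendsto_atTop_zero_of_tsum_ne_top h5.ne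

lemma mem_SecSet_of_qq {S : Set Crd} {f : Pt} (h : qq f ∈ qq '' SecSet S) : f ∈ SecSet S := by
  have h1 : (SeparationQuotient.mk : Pt → MM) ⁻¹' (SeparationQuotient.mk '' SecSet S) = SecSet S :=
    SeparationQuotient.preimage_image_mk_closed (isClosed_SecSet S)
  rw [← h1]
  exact h

lemma isClosed_image_SecSet (S : Set Crd) : IsClosed (qq '' SecSet S) :=
  SeparationQuotient.isClosedMap_mk _ (isClosed_SecSet S)

lemma cst_mem_SecSet (S : Set Crd) (c : Fin 3) : cst c ∈ SecSet S :=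
  mem_SecSet_iff.2 (Eventually.of_forall fun _ => Gen_subset_XS S (cs_mem_Gen S c))

lemma edge_mem_SecSet {S : Set Crd} (hS : Down S) {j : Crd} (h1 : srcP j ∈ SecSet S)
    (h2 : tgtP j ∈ SecSet S) {s : ℝ} (hs : s ∈ Icc (0:ℝ) 1) : edge j s ∈ SecSet S := by
  rw [mem_SecSet_iff] at *
  by_cases hj : j ∈ S
  · refine Eventually.of_forall fun w' => ?_
    have : sec S (edge j s) w' = edge j s :=
      sec_of_dep ((dep_edge j s).mono (insert_subset hj (hS j hj))) w'
    rw [this]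
    exact Gen_subset_XS S (EE_subset_Gen hj (ed_mem_EE hs))
  · filter_upwards [h1, h2] with w' h3 h4
    rcases sec_edge_of_notMem hj s w' with h | h
    · rw [h]; exact h3
    · rw [h]; exact h4

lemma ends_mem_SecSet {S : Set Crd} (hS : Down S) {A : Set Crd} (hA : Down A)
    (hwf : ∀ j ∈ A, WFc j) (j : Crd) : j ∈ A → srcP j ∈ SecSet S ∧ tgtP j ∈ SecSet S := by
  induction j using wf_below.induction with
  | h j ih =>
    intro hj
    have hsub : XS (below j) ⊆ qq '' SecSet S := by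
      refine closure_minimal ?_ (isClosed_image_SecSet S)
      rintro y (⟨c, rfl⟩ | hy)
      · exact ⟨cst c, cst_mem_SecSet S c, rfl⟩
      · simp only [mem_iUnion] at hy
        obtain ⟨i, hi, t, ht, rfl⟩ := hy
        obtain ⟨h1, h2⟩ := ih i hi (hA j hj hi)
        exact ⟨edge i t, edge_mem_SecSet hS h1 h2 ht, rfl⟩
    exact ⟨mem_SecSet_of_qq (hsub (hwf j hj).1), mem_SecSet_of_qq (hsub (hwf j hj).2)⟩

theorem XS_subset_SecSet {S : Set Crd} (hS : Down S) {A : Set Crd} (hA : Down A)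
    (hwf : ∀ j ∈ A, WFc j) : XS A ⊆ qq '' SecSet S := by
  refine closure_minimal ?_ (isClosed_image_SecSet S)
  rintro y (⟨c, rfl⟩ | hy)
  · exact ⟨cst c, cst_mem_SecSet S c, rfl⟩
  · simp only [mem_iUnion] at hy
    obtain ⟨i, hi, t, ht, rfl⟩ := hy
    obtain ⟨h1, h2⟩ := ends_mem_SecSet hS hA hwf i hi
    exact ⟨edge i t, edge_mem_SecSet hS h1 h2 ht, rfl⟩

lemma exists_dep_rep {A : Set Crd} (hA : Down A) {x : MM} (hx : x ∈ Gen A) :
    ∃ f : Pt, qq f = x ∧ Dep f.1 A := by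
  rcases hx with ⟨c, rfl⟩ | hy
  · exact ⟨cst c, rfl, fun _ _ _ => rfl⟩
  · simp only [mem_iUnion] at hy
    obtain ⟨i, hi, t, ht, rfl⟩ := hy
    exact ⟨edge i t, rfl, (dep_edge i t).mono (insert_subset hi (hA i hi))⟩

/-- Selection of a degenerate triple in a smaller stage near given points. -/
theorem exists_section {S : Set Crd} (hS : Down S) {A : Set Crd} (hA : Down A)
    (hwf : ∀ j ∈ A, WFc j) {P Q R : MM} (hP : P ∈ XS A) (hQ : Q ∈ XS A) (hR : R ∈ XS A)
    (hdeg : dist P Q + dist Q R = dist P R) {P' Q' R' : MM} (hP' : P' ∈ Gen S) (hQ' : Q' ∈ Gen S)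
    (hR' : R' ∈ Gen S) :
    ∃ x ∈ XS S, ∃ y ∈ XS S, ∃ z ∈ XS S, dist x y + dist y z = dist x z ∧
      dist x P' + dist y Q' + dist z R' ≤ dist P P' + dist Q Q' + dist R R' := by
  obtain ⟨f, hf, rfl⟩ := XS_subset_SecSet hS hA hwf hP
  obtain ⟨g, hg, rfl⟩ := XS_subset_SecSet hS hA hwf hQ
  obtain ⟨h, hh, rfl⟩ := XS_subset_SecSet hS hA hwf hR
  obtain ⟨f', rfl, hf'⟩ := exists_dep_rep hS hP'
  obtain ⟨g', rfl, hg'⟩ := exists_dep_rep hS hQ'
  obtain ⟨h', rfl, hh'⟩ := exists_dep_rep hS hR'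
  simp only [dist_qq] at hdeg
  have hd := deg_sec (S := S) hdeg
  have hgood : ∀ᵐ w' ∂mu, (qq (sec S f w') ∈ XS S ∧ qq (sec S g w') ∈ XS S ∧
      qq (sec S h w') ∈ XS S) ∧ dist (sec S f w') (sec S g w') + dist (sec S g w') (sec S h w') =
      dist (sec S f w') (sec S h w') := by
    filter_upwards [hf, hg, hh, hd] with w' a b c d
    exact ⟨⟨a, b, c⟩, d⟩
  rw [ae_iff] at hgood
  obtain ⟨w', hw', hle⟩ := exists_notMem_null_le_lintegral (μ := mu)
    (f := fun w' => edist (sec S f w') (sec S f' w') + edist (sec S g w') (sec S g' w') +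
      edist (sec S h w') (sec S h' w'))
    (((measurable_edist_sec S f f').add (measurable_edist_sec S g g')).add
      (measurable_edist_sec S h h')).aemeasurable hgood
  simp only [mem_ofPred_eq, not_not] at hw'
  obtain ⟨⟨h1, h2, h3⟩, h4⟩ := hw'
  refine ⟨_, h1, _, h2, _, h3, ?_, ?_⟩
  · simp only [dist_qq]; exact h4
  · rw [lintegral_add_right _ (measurable_edist_sec S h h'),
      lintegral_add_right _ (measurable_edist_sec S g g'), lintegral_edist_sec,
      lintegral_edist_sec, lintegral_edist_sec, sec_of_dep hf', sec_of_dep hg', sec_of_dep hh'] at hle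
    simp only [edist_dist] at hle
    rw [← ENNReal.ofReal_add dist_nonneg dist_nonneg, ← ENNReal.ofReal_add (by positivity) dist_nonneg,
      ← ENNReal.ofReal_add dist_nonneg dist_nonneg, ← ENNReal.ofReal_add (by positivity) dist_nonneg,
      ENNReal.ofReal_le_ofReal_iff (by positivity)] at hle
    simpa only [dist_qq] using hle

/-- every generating element over a stage containing the base coordinates is a segment point -/
lemma Gen_eq_ed {A : Set Crd} (hb : ∀ c, Crd.base c ∈ A) {x : MM} (hx : x ∈ Gen A) :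
    ∃ j ∈ A, ∃ s ∈ Icc (0:ℝ) 1, x = ed j s := by
  rcases hx with ⟨c, rfl⟩ | hy
  · refine ⟨Crd.base c, hb c, 0, by simp, ?_⟩
    rw [ed_zero]
    rfl
  · simp only [mem_iUnion] at hy
    obtain ⟨i, hi, t, ht, rfl⟩ := hy
    exact ⟨i, hi, t, ht, rfl⟩

lemma exists_seq {A : Set Crd} (hb : ∀ c, Crd.base c ∈ A) {x : MM} (hx : x ∈ XS A) :
    ∃ (a : ℕ → Crd) (s : ℕ → ℝ), (∀ n, a n ∈ A) ∧ (∀ n, s n ∈ Icc (0:ℝ) 1) ∧
      ∀ n, edist (ed (a n) (s n)) x ≤ ((2:ℝ≥0∞)⁻¹) ^ n := by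
  have h1 : ∀ n : ℕ, ∃ j ∈ A, ∃ s ∈ Icc (0:ℝ) 1, edist (ed j s) x ≤ ((2:ℝ≥0∞)⁻¹) ^ n := by
    intro n
    obtain ⟨y, hy, hd⟩ := EMetric.mem_closure_iff.1 hx (((2:ℝ≥0∞)⁻¹) ^ n)
      (ENNReal.pow_pos (by simp) n)
    obtain ⟨j, hj, s, hs, rfl⟩ := Gen_eq_ed hb hy
    exact ⟨j, hj, s, hs, by rw [edist_comm]; exact hd.le⟩
  choose a ha s hs hd using h1
  exact ⟨a, s, ha, hs, hd⟩

lemma limP_eq {a : ℕ → Crd} {s : ℕ → ℝ} {x : MM}
    (hd : ∀ n, edist (ed (a n) (s n)) x ≤ ((2:ℝ≥0∞)⁻¹) ^ n) :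
    qq (limP fun n => edge (a n) (s n)) = x := by
  obtain ⟨f, rfl⟩ := exists_rep x
  rw [qq_eq_iff, dist_eq_zero_iff]
  refine limP_ae ?_
  refine ne_top_of_le_ne_top ?_ (ENNReal.tsum_le_tsum (fun n => ?_) : _ ≤ ∑' n : ℕ, ((2:ℝ≥0∞)⁻¹) ^ n)
  · have := tsum_half 0
    simp only [zero_add, pow_zero, one_mul] at this
    rw [this]
    simp
  · rw [← edist_qq]; exact hd n

lemma mem_XS_of_seq {A : Set Crd} {a : ℕ → Crd} {s : ℕ → ℝ} {x : MM} (ha : ∀ n, a n ∈ A)
    (hs : ∀ n, s n ∈ Icc (0:ℝ) 1)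
    (hd : ∀ n, edist (ed (a n) (s n)) x ≤ ((2:ℝ≥0∞)⁻¹) ^ n) : x ∈ XS A := by
  refine mem_closure_of_tendsto (f := fun n => ed (a n) (s n)) (b := atTop) ?_
    (Eventually.of_forall fun n => EE_subset_Gen (ha n) (ed_mem_EE (hs n)))
  rw [tendsto_iff_edist_tendsto_0]
  exact tendsto_of_tendsto_of_tendsto_of_le_of_le tendsto_const_nhds
    (ENNReal.tendsto_pow_atTop_nhds_zero_of_lt_one (r := (2:ℝ≥0∞)⁻¹) (by simp))
    (fun _ => zero_le) hd

/-- a fresh coordinate joining two given points -/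
theorem exists_coord {A : Set Crd} (hb : ∀ c, Crd.base c ∈ A) (hA : Down A) {x y : MM}
    (hx : x ∈ XS A) (hy : y ∈ XS A) :
    ∃ j, below j ⊆ A ∧ WFc j ∧ ed j 0 = x ∧ ed j 1 = y := by
  obtain ⟨a, s, ha, hs, had⟩ := exists_seq hb hx
  obtain ⟨b, t, hb', ht, hbd⟩ := exists_seq hb hy
  have hsr : sr (Crd.mk a s b t) = x := by
    rw [← limP_eq had]
    rfl
  have htg : tg (Crd.mk a s b t) = y := by
    rw [← limP_eq hbd]
    rfl
  refine ⟨Crd.mk a s b t, ?_, ⟨?_, ?_⟩, ?_, ?_⟩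
  · intro i hi
    simp only [below, mem_union, mem_iUnion, mem_insert_iff] at hi
    rcases hi with ⟨n, h | h⟩ | ⟨n, h | h⟩
    · rw [h]; exact ha n
    · exact hA _ (ha n) h
    · rw [h]; exact hb' n
    · exact hA _ (hb' n) h
  · rw [hsr]
    refine mem_XS_of_seq (a := a) (s := s) (fun n => ?_) hs had
    simp only [below, mem_union, mem_iUnion, mem_insert_iff]
    exact Or.inl ⟨n, Or.inl rfl⟩
  · rw [htg]
    refine mem_XS_of_seq (a := b) (s := t) (fun n => ?_) ht hbd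
    simp only [below, mem_union, mem_iUnion, mem_insert_iff]
    exact Or.inr ⟨n, Or.inl rfl⟩
  · rw [ed_zero, hsr]
  · rw [ed_one, htg]

end

end Pool.Agent.Lib.MP_b098a7_gt
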