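import Pool.Agent.Lib.MP_b098a7_gt.Space

set_option autoImplicit false

open MeasureTheory Set Filter Topology

namespace Pool.Agent.Lib.MP_b098a7_gt

noncomputable section

/-- Metric case analysis for adding one segment with affine distance functions. -/
lemma one_step_aux {M I : Type*} [MetricSpace M] (X : Set M) (E : I → Set M) (K : Set I)
    (C : ℝ → M) (h0 : C 0 ∈ X) (h1 : C 1 ∈ X)
    (hne : C 0 ≠ C 1)
    (haff : ∀ s ∈ Icc (0:ℝ) 1, ∀ x ∈ X, dist (C s) x = s * dist (C 1) x + (1 - s) * dist (C 0) x)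
    (hCC : ∀ s ∈ Icc (0:ℝ) 1, ∀ t ∈ Icc (0:ℝ) 1, dist (C s) (C t) = |s - t| * dist (C 0) (C 1))
    (huniq : ∀ j ∈ K, ∀ k ∈ K, j ≠ k → ∀ x y, x ∈ E j → y ∈ E j → x ∈ E k → y ∈ E k → x = y)
    (hdeg : ∀ x ∈ X, ∀ y ∈ X, ∀ z ∈ X, x ≠ y → y ≠ z → dist x y + dist y z = dist x z →
      ∃ j ∈ K, x ∈ E j ∧ y ∈ E j ∧ z ∈ E j)
    (hun : ¬ ∃ j ∈ K, C 0 ∈ E j ∧ C 1 ∈ E j) :
    ∀ x ∈ X ∪ C '' Icc 0 1, ∀ y ∈ X ∪ C '' Icc 0 1, ∀ z ∈ X ∪ C '' Icc 0 1,
      x ≠ y → y ≠ z → dist x y + dist y z = dist x z →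
      (∃ j ∈ K, x ∈ E j ∧ y ∈ E j ∧ z ∈ E j) ∨
        (x ∈ C '' Icc 0 1 ∧ y ∈ C '' Icc 0 1 ∧ z ∈ C '' Icc 0 1) := by
  have hL : 0 < dist (C 0) (C 1) := dist_pos.2 hne
  have m0 : C 0 ∈ C '' Icc 0 1 := ⟨0, by simp, rfl⟩
  have m1 : C 1 ∈ C '' Icc 0 1 := ⟨1, by simp, rfl⟩
  -- no third point is aligned with the two ends
  have u1 : ∀ z ∈ X, z ≠ C 1 → dist (C 0) (C 1) + dist (C 1) z ≠ dist (C 0) z := by
    intro z hz hz1 h
    obtain ⟨j, hj, a, b, c⟩ := hdeg _ h0 _ h1 _ hz hne (Ne.symm hz1) h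
    exact hun ⟨j, hj, a, b⟩
  have u2 : ∀ z ∈ X, z ≠ C 0 → dist (C 1) (C 0) + dist (C 0) z ≠ dist (C 1) z := by
    intro z hz hz1 h
    obtain ⟨j, hj, a, b, c⟩ := hdeg _ h1 _ h0 _ hz (Ne.symm hne) (Ne.symm hz1) h
    exact hun ⟨j, hj, b, a⟩
  -- first kind of triple
  have mid : ∀ f ∈ X, ∀ h ∈ X, f ≠ h → ∀ s ∈ Ioo (0:ℝ) 1,
      dist f (C s) + dist (C s) h = dist f h → (f = C 0 ∨ f = C 1) ∧ (h = C 0 ∨ h = C 1) := by
    intro f hf h hh hfh s hs he
    have hsI : s ∈ Icc (0:ℝ) 1 := ⟨hs.1.le, hs.2.le⟩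
    rw [dist_comm f (C s), haff s hsI f hf, haff s hsI h hh] at he
    have t1 := dist_triangle f (C 1) h
    have t0 := dist_triangle f (C 0) h
    rw [dist_comm f (C 1)] at t1
    rw [dist_comm f (C 0)] at t0
    have e1 : dist (C 1) f + dist (C 1) h = dist f h := by
      by_contra hcon
      have : dist f h < dist (C 1) f + dist (C 1) h := lt_of_le_of_ne t1 (Ne.symm hcon)
      nlinarith [hs.1, hs.2]
    have e0 : dist (C 0) f + dist (C 0) h = dist f h := by
      by_contra hcon
      have : dist f h < dist (C 0) f + dist (C 0) h := lt_of_le_of_ne t0 (Ne.symm hcon)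
      nlinarith [hs.1, hs.2]
    by_cases a0 : f = C 0
    · refine ⟨Or.inl a0, ?_⟩
      by_contra hcon
      rw [not_or] at hcon
      subst a0
      exact u1 h hh hcon.2 (by rw [dist_comm (C 0) (C 1)]; exact e1)
    · by_cases a1 : f = C 1
      · refine ⟨Or.inr a1, ?_⟩
        by_contra hcon
        rw [not_or] at hcon
        subst a1
        exact u2 h hh hcon.1 (by rw [dist_comm (C 1) (C 0)]; exact e0)
      · exfalso
        by_cases b0 : h = C 0
        · subst b0
          refine u1 f hf a1 ?_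
          rw [dist_comm (C 0) (C 1), dist_comm (C 0) f]; linarith
        · by_cases b1 : h = C 1
          · subst b1
            refine u2 f hf a0 ?_
            rw [dist_comm (C 1) (C 0), dist_comm (C 1) f]; linarith
          · obtain ⟨j, hj, p1, p2, p3⟩ := hdeg f hf _ h1 h hh a1 (Ne.symm b1)
              (by rw [dist_comm f]; exact e1)
            obtain ⟨k, hk, q1, q2, q3⟩ := hdeg f hf _ h0 h hh a0 (Ne.symm b0)
              (by rw [dist_comm f]; exact e0)
            by_cases hjk : j = k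
            · subst hjk
              exact hun ⟨j, hj, q2, p2⟩
            · exact hfh (huniq j hj k hk hjk f h p1 p3 q1 q3)
  -- second kind of triple
  have en : ∀ g ∈ X, ∀ h ∈ X, g ≠ h → ∀ s ∈ Ioo (0:ℝ) 1,
      dist (C s) g + dist g h = dist (C s) h → False := by
    intro g hg h hh hgh s hs he
    have hsI : s ∈ Icc (0:ℝ) 1 := ⟨hs.1.le, hs.2.le⟩
    rw [haff s hsI g hg, haff s hsI h hh] at he
    have t1 := dist_triangle (C 1) g h
    have t0 := dist_triangle (C 0) g h
    have e1 : dist (C 1) g + dist g h = dist (C 1) h := by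
      by_contra hcon
      have : dist (C 1) h < dist (C 1) g + dist g h := lt_of_le_of_ne t1 (Ne.symm hcon)
      nlinarith [hs.1, hs.2]
    have e0 : dist (C 0) g + dist g h = dist (C 0) h := by
      by_contra hcon
      have : dist (C 0) h < dist (C 0) g + dist g h := lt_of_le_of_ne t0 (Ne.symm hcon)
      nlinarith [hs.1, hs.2]
    by_cases a0 : g = C 0
    · subst a0
      exact u2 h hh (Ne.symm hgh) e1
    · by_cases a1 : g = C 1
      · subst a1
        exact u1 h hh (Ne.symm hgh) e0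
      · obtain ⟨j, hj, p1, p2, p3⟩ := hdeg _ h1 g hg h hh (Ne.symm a1) hgh e1
        obtain ⟨k, hk, q1, q2, q3⟩ := hdeg _ h0 g hg h hh (Ne.symm a0) hgh e0
        by_cases hjk : j = k
        · subst hjk
          exact hun ⟨j, hj, q1, p1⟩
        · exact hgh (huniq j hj k hk hjk g h p2 p3 q2 q3)
  -- third kind of triple
  have th : ∀ h ∈ X, ∀ s ∈ Ioo (0:ℝ) 1, ∀ t ∈ Ioo (0:ℝ) 1, s ≠ t →
      dist (C s) (C t) + dist (C t) h = dist (C s) h → h = C 0 ∨ h = C 1 := by
    intro h hh s hs t ht hst he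
    have hsI : s ∈ Icc (0:ℝ) 1 := ⟨hs.1.le, hs.2.le⟩
    have htI : t ∈ Icc (0:ℝ) 1 := ⟨ht.1.le, ht.2.le⟩
    rw [haff s hsI h hh, haff t htI h hh, hCC s hsI t htI] at he
    by_contra hcon
    rw [not_or] at hcon
    rcases lt_or_gt_of_ne hst with hlt | hlt
    · rw [abs_of_neg (by linarith)] at he
      refine u1 h hh hcon.2 ?_
      have : (t - s) * (dist (C 0) (C 1) + dist (C 1) h - dist (C 0) h) = 0 := by linarith
      rcases mul_eq_zero.1 this with h' | h'
      · linarith
      · linarith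
    · rw [abs_of_pos (by linarith)] at he
      refine u2 h hh hcon.1 ?_
      rw [dist_comm (C 1) (C 0)]
      have : (s - t) * (dist (C 0) (C 1) + dist (C 0) h - dist (C 1) h) = 0 := by linarith
      rcases mul_eq_zero.1 this with h' | h'
      · linarith
      · linarith
  have fo : ∀ g ∈ X, ∀ s ∈ Ioo (0:ℝ) 1, ∀ t ∈ Ioo (0:ℝ) 1,
      dist (C s) g + dist g (C t) = dist (C s) (C t) → False := by
    intro g hg s hs t ht he
    have hsI : s ∈ Icc (0:ℝ) 1 := ⟨hs.1.le, hs.2.le⟩
    have htI : t ∈ Icc (0:ℝ) 1 := ⟨ht.1.le, ht.2.le⟩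
    rw [dist_comm g (C t), haff s hsI g hg, haff t htI g hg, hCC s hsI t htI] at he
    have t0 := dist_triangle (C 0) g (C 1)
    rw [dist_comm g (C 1)] at t0
    have p0 : 0 ≤ dist (C 0) g := dist_nonneg
    have p1 : 0 ≤ dist (C 1) g := dist_nonneg
    rcases le_total s t with hle | hle
    · rw [abs_of_nonpos (by linarith)] at he
      have h3 : (t - s) * (dist (C 0) g + dist (C 1) g - dist (C 0) (C 1)) ≥ 0 :=
        mul_nonneg (by linarith) (by linarith)
      have h4 : s * dist (C 1) g + (1 - t) * dist (C 0) g ≤ 0 := by nlinarith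
      have h5 : s * dist (C 1) g ≤ 0 := by nlinarith [mul_nonneg (sub_nonneg.2 ht.2.le) p0]
      have h6 : (1 - t) * dist (C 0) g ≤ 0 := by nlinarith [mul_nonneg hs.1.le p1]
      have h7 : dist (C 1) g ≤ 0 := by
        by_contra hcon
        push Not at hcon
        have := mul_pos hs.1 hcon
        linarith
      have h8 : dist (C 0) g ≤ 0 := by
        by_contra hcon
        push Not at hcon
        have := mul_pos (sub_pos.2 ht.2) hcon
        linarith
      linarith
    · rw [abs_of_nonneg (by linarith)] at he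
      have h3 : (s - t) * (dist (C 0) g + dist (C 1) g - dist (C 0) (C 1)) ≥ 0 :=
        mul_nonneg (by linarith) (by linarith)
      have h4 : t * dist (C 1) g + (1 - s) * dist (C 0) g ≤ 0 := by nlinarith
      have h5 : t * dist (C 1) g ≤ 0 := by nlinarith [mul_nonneg (sub_nonneg.2 hs.2.le) p0]
      have h6 : (1 - s) * dist (C 0) g ≤ 0 := by nlinarith [mul_nonneg ht.1.le p1]
      have h7 : dist (C 1) g ≤ 0 := by
        by_contra hcon
        push Not at hcon
        have := mul_pos ht.1 hcon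
        linarith
      have h8 : dist (C 0) g ≤ 0 := by
        by_contra hcon
        push Not at hcon
        have := mul_pos (sub_pos.2 hs.2) hcon
        linarith
      linarith
  have hcase : ∀ x ∈ X ∪ C '' Icc 0 1, x ∈ X ∨ ∃ s ∈ Ioo (0:ℝ) 1, x = C s := by
    rintro x (hx | ⟨s, hs, rfl⟩)
    · exact Or.inl hx
    · rcases eq_or_lt_of_le hs.1 with h | h
      · left; rw [← h]; exact h0
      · rcases eq_or_lt_of_le hs.2 with h' | h'
        · left; rw [h']; exact h1
        · exact Or.inr ⟨s, ⟨h, h'⟩, rfl⟩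
  have hmem : ∀ s ∈ Ioo (0:ℝ) 1, C s ∈ C '' Icc 0 1 := fun s hs => ⟨s, ⟨hs.1.le, hs.2.le⟩, rfl⟩
  have hmem' : ∀ h, (h = C 0 ∨ h = C 1) → h ∈ C '' Icc 0 1 := by
    rintro h (rfl | rfl)
    · exact m0
    · exact m1
  intro x hx y hy z hz hxy hyz he
  have hxz : x ≠ z := by
    rintro rfl
    rw [dist_self] at he
    have := dist_pos.2 hxy
    have := dist_pos.2 hyz
    linarith
  rcases hcase x hx with hx | ⟨s, hs, rfl⟩
  · rcases hcase y hy with hy | ⟨t, ht, rfl⟩
    · rcases hcase z hz with hz | ⟨r, hr, rfl⟩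
      · exact Or.inl (hdeg x hx y hy z hz hxy hyz he)
      · exfalso
        exact en y hy x hx (Ne.symm hxy) r hr (by
          rw [dist_comm (C r) y, dist_comm (C r) x, dist_comm y x]; linarith)
    · rcases hcase z hz with hz | ⟨r, hr, rfl⟩
      · obtain ⟨a, b⟩ := mid x hx z hz hxz t ht he
        exact Or.inr ⟨hmem' _ a, hmem t ht, hmem' _ b⟩
      · have hrt : r ≠ t := by rintro rfl; exact hyz rfl
        have := th x hx r hr t ht hrt (by
          rw [dist_comm (C r) (C t), dist_comm (C t) x, dist_comm (C r) x]; linarith)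
        exact Or.inr ⟨hmem' _ this, hmem t ht, hmem r hr⟩
  · rcases hcase y hy with hy | ⟨t, ht, rfl⟩
    · rcases hcase z hz with hz | ⟨r, hr, rfl⟩
      · exact (en y hy z hz hyz s hs he).elim
      · exact (fo y hy s hs r hr he).elim
    · rcases hcase z hz with hz | ⟨r, hr, rfl⟩
      · have hst : s ≠ t := by rintro rfl; exact hxy rfl
        exact Or.inr ⟨hmem s hs, hmem t ht, hmem' _ (th z hz s hs t ht hst he)⟩
      · exact Or.inr ⟨hmem s hs, hmem t ht, hmem r hr⟩

/-- admissible sets of active coordinates -/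
structure Good (A : Set Crd) : Prop where
  base : ∀ c, Crd.base c ∈ A
  down : Down A
  wf : ∀ j ∈ A, WFc j
  uniq : ∀ j ∈ A, ∀ k ∈ A, j ≠ k → ∀ x y, x ∈ EE j → y ∈ EE j → x ∈ EE k → y ∈ EE k → x = y
  deg : ∀ x ∈ XS A, ∀ y ∈ XS A, ∀ z ∈ XS A, x ≠ y → y ≠ z → dist x y + dist y z = dist x z →
    ∃ j ∈ A, x ∈ EE j ∧ y ∈ EE j ∧ z ∈ EE j

lemma dist_cs {i k : Fin 3} (h : i ≠ k) : dist (cs i) (cs k) = 1 := by
  simp only [cs, dist_qq, dist_def, cst]
  have : {w : Om | i ≠ k} = univ := by
    ext w; simp [h]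
  rw [this]
  simp

lemma EE_base (c : Fin 3) : EE (Crd.base c) = {cs c} := by
  have h : ∀ s, ed (Crd.base c) s = cs c := by
    intro s
    have : edge (Crd.base c) s = cst c := by
      apply Pt.ext'
      intro w
      simp [edge, ends, cst]
    simp only [ed, cs, this]
  ext x
  simp only [EE, mem_image, mem_singleton_iff]
  constructor
  · rintro ⟨s, _, rfl⟩; exact h s
  · rintro rfl; exact ⟨0, by simp, h 0⟩

lemma XS_base : XS (range Crd.base) = range cs := by
  have h : Gen (range Crd.base) = range cs := by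
    apply Subset.antisymm
    · rintro x (hx | hx)
      · exact hx
      · simp only [mem_iUnion] at hx
        obtain ⟨j, ⟨c, rfl⟩, hx⟩ := hx
        rw [EE_base] at hx
        exact ⟨c, (mem_singleton_iff.1 hx).symm⟩
    · exact subset_union_left
  rw [XS, h]
  exact (finite_range cs).isClosed.closure_eq

lemma good_base : Good (range Crd.base) where
  base c := ⟨c, rfl⟩
  down := by
    rintro j ⟨c, rfl⟩ i hi
    exact absurd hi (by simp [below])
  wf := by
    rintro j ⟨c, rfl⟩
    exact ⟨Gen_subset_XS _ (cs_mem_Gen _ c), Gen_subset_XS _ (cs_mem_Gen _ c)⟩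
  uniq := by
    rintro j ⟨c, rfl⟩ k _ _ x y hx hy _ _
    rw [EE_base, mem_singleton_iff] at hx hy
    rw [hx, hy]
  deg := by
    rw [XS_base]
    rintro x ⟨i, rfl⟩ y ⟨j, rfl⟩ z ⟨k, rfl⟩ hxy hyz he
    exfalso
    have h1 : i ≠ j := by rintro rfl; exact hxy rfl
    have h2 : j ≠ k := by rintro rfl; exact hyz rfl
    rw [dist_cs h1, dist_cs h2] at he
    by_cases h3 : i = k
    · subst h3
      rw [dist_self] at he
      norm_num at he
    · rw [dist_cs h3] at he
      norm_num at he

lemma near_end {j k : Crd} (hk : k ∉ insert j (below j)) {x y : MM} (hx : x ∈ EE j)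
    (hy : y ∈ EE k) : dist y (ed k 0) ≤ dist x y ∨ dist y (ed k 1) ≤ dist x y := by
  obtain ⟨s, hs, rfl⟩ := hy
  have hx' : x ∈ XS (insert j (below j)) :=
    Gen_subset_XS _ (EE_subset_Gen (mem_insert _ _) hx)
  have h := dist_ed_of_mem (down_insert_below j) hk hs hx'
  have t := dist_triangle (sr k) x (tg k)
  rw [ed_zero, ed_one] at h
  rw [dist_comm x (ed k s), h]
  have e0 : dist (ed k s) (ed k 0) = s * dist (sr k) (tg k) := by
    rw [dist_ed_ed k hs (by simp), sub_zero, abs_of_nonneg hs.1]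
  have e1 : dist (ed k s) (ed k 1) = (1 - s) * dist (sr k) (tg k) := by
    rw [dist_ed_ed k hs (by simp), abs_of_nonpos (by linarith [hs.2])]; ring
  rw [e0, e1]
  rw [dist_comm x (tg k)] at t
  have p0 : 0 ≤ dist (sr k) x := dist_nonneg
  have p1 : 0 ≤ dist (tg k) x := dist_nonneg
  rcases le_total s (1/2) with h2 | h2
  · left
    nlinarith [mul_nonneg (by linarith : (0:ℝ) ≤ 1 - 2 * s) p0, mul_le_mul_of_nonneg_left t hs.1]
  · right
    nlinarith [mul_nonneg (by linarith : (0:ℝ) ≤ 2 * s - 1) p1,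
      mul_le_mul_of_nonneg_left t (by linarith [hs.2] : (0:ℝ) ≤ 1 - s)]

lemma pigeon {M : Type*} [MetricSpace M] {a b x y z : M} {e : ℝ} (hx : dist x a ≤ e ∨ dist x b ≤ e)
    (hy : dist y a ≤ e ∨ dist y b ≤ e) (hz : dist z a ≤ e ∨ dist z b ≤ e) :
    dist x y ≤ 2 * e ∨ dist y z ≤ 2 * e ∨ dist x z ≤ 2 * e := by
  have key : ∀ u v w : M, dist u w ≤ e → dist v w ≤ e → dist u v ≤ 2 * e := by
    intro u v w h1 h2
    have := dist_triangle_right u v w
    linarith
  rcases hx with hx | hx <;> rcases hy with hy | hy <;> rcases hz with hz | hz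
  · exact Or.inl (key _ _ _ hx hy)
  · exact Or.inl (key _ _ _ hx hy)
  · exact Or.inr (Or.inr (key _ _ _ hx hz))
  · exact Or.inr (Or.inl (key _ _ _ hy hz))
  · exact Or.inr (Or.inl (key _ _ _ hy hz))
  · exact Or.inr (Or.inr (key _ _ _ hx hz))
  · exact Or.inl (key _ _ _ hx hy)
  · exact Or.inl (key _ _ _ hx hy)

lemma separation {j k : Crd} (hjk : j ≠ k) {x y z x' y' z' : MM} (hx : x ∈ EE j) (hy : y ∈ EE j)
    (hz : z ∈ EE j) (hx' : x' ∈ EE k) (hy' : y' ∈ EE k) (hz' : z' ∈ EE k) {e : ℝ}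
    (h1 : dist x x' ≤ e) (h2 : dist y y' ≤ e) (h3 : dist z z' ≤ e) :
    dist x y ≤ 4 * e ∨ dist y z ≤ 4 * e ∨ dist x z ≤ 4 * e := by
  by_cases hk : k ∈ insert j (below j)
  · have hj : j ∉ insert k (below k) := by
      rcases hk with hk | hk
      · exact absurd hk.symm hjk
      · rintro (hj | hj)
        · exact hjk hj
        · exact wf_below.asymmetric _ _ hk hj
    have a : dist x (ed j 0) ≤ e ∨ dist x (ed j 1) ≤ e := by
      rcases near_end hj hx' hx with h | h
      · left; rw [dist_comm x' x] at h; linarith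
      · right; rw [dist_comm x' x] at h; linarith
    have b : dist y (ed j 0) ≤ e ∨ dist y (ed j 1) ≤ e := by
      rcases near_end hj hy' hy with h | h
      · left; rw [dist_comm y' y] at h; linarith
      · right; rw [dist_comm y' y] at h; linarith
    have c : dist z (ed j 0) ≤ e ∨ dist z (ed j 1) ≤ e := by
      rcases near_end hj hz' hz with h | h
      · left; rw [dist_comm z' z] at h; linarith
      · right; rw [dist_comm z' z] at h; linarith
    have he : 0 ≤ e := dist_nonneg.trans h1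
    rcases pigeon a b c with h | h | h
    · left; linarith
    · right; left; linarith
    · right; right; linarith
  · have a : dist x' (ed k 0) ≤ e ∨ dist x' (ed k 1) ≤ e := by
      rcases near_end hk hx hx' with h | h
      · left; linarith
      · right; linarith
    have b : dist y' (ed k 0) ≤ e ∨ dist y' (ed k 1) ≤ e := by
      rcases near_end hk hy hy' with h | h
      · left; linarith
      · right; linarith
    have c : dist z' (ed k 0) ≤ e ∨ dist z' (ed k 1) ≤ e := by
      rcases near_end hk hz hz' with h | h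
      · left; linarith
      · right; linarith
    have key : ∀ u v u' v' : MM, dist u u' ≤ e → dist v v' ≤ e → dist u' v' ≤ 2 * e →
        dist u v ≤ 4 * e := by
      intro u v u' v' a b c
      have := dist_triangle4 u u' v' v
      rw [dist_comm v' v] at this
      linarith
    rcases pigeon a b c with h | h | h
    · left; exact key _ _ _ _ h1 h2 h
    · right; left; exact key _ _ _ _ h2 h3 h
    · right; right; exact key _ _ _ _ h1 h3 h

/-- adding one segment between two unjoined points -/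
theorem good_insert {A : Set Crd} (hA : Good A) {x y : MM} (hx : x ∈ XS A) (hy : y ∈ XS A)
    (hxy : x ≠ y) (hun : ¬ ∃ j ∈ A, x ∈ EE j ∧ y ∈ EE j) :
    ∃ j, j ∉ A ∧ Good (insert j A) := by
  obtain ⟨j, hbj, hwf, h0, h1⟩ := exists_coord hA.base hA.down hx hy
  have hj : j ∉ A := by
    intro hj
    exact hun ⟨j, hj, h0 ▸ ed_mem_EE (by simp), h1 ▸ ed_mem_EE (by simp)⟩
  refine ⟨j, hj, ?_⟩
  subst h0
  subst h1
  have haff : ∀ s ∈ Icc (0:ℝ) 1, ∀ x ∈ XS A,
      dist (ed j s) x = s * dist (ed j 1) x + (1 - s) * dist (ed j 0) x := fun s hs x hx =>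
    dist_ed_of_mem hA.down hj hs hx
  have hCC : ∀ s ∈ Icc (0:ℝ) 1, ∀ t ∈ Icc (0:ℝ) 1,
      dist (ed j s) (ed j t) = |s - t| * dist (ed j 0) (ed j 1) := fun s hs t ht => by
    rw [ed_zero, ed_one]; exact dist_ed_ed j hs ht
  have hXS : XS (insert j A) = XS A ∪ ed j '' Icc 0 1 := by
    have : Gen (insert j A) = Gen A ∪ EE j := by
      simp only [Gen, biUnion_insert]
      ext z
      simp only [mem_union]
      tauto
    rw [XS, this, closure_union, (isClosed_EE j).closure_eq]
    rfl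
  have hends : ∀ u ∈ EE j, u ∈ XS A → u = ed j 0 ∨ u = ed j 1 := by
    rintro u ⟨s, hs, rfl⟩ hu
    have h := haff s hs _ hu
    rw [dist_self, hCC 1 (by simp) s hs, hCC 0 (by simp) s hs, abs_of_nonneg (by linarith [hs.2]),
      abs_of_nonpos (by linarith [hs.1])] at h
    have hL : 0 < dist (ed j 0) (ed j 1) := dist_pos.2 hxy
    have h2 : s * (1 - s) * dist (ed j 0) (ed j 1) = 0 := by linarith
    rcases mul_eq_zero.1 h2 with h3 | h3
    · rcases mul_eq_zero.1 h3 with h4 | h4
      · left; rw [h4]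
      · right; rw [show s = 1 by linarith]
    · exact absurd h3 hL.ne'
  have hEEA : ∀ k ∈ A, EE k ⊆ XS A := fun k hk => (EE_subset_Gen hk).trans (Gen_subset_XS A)
  have huniq' : ∀ k ∈ A, ∀ x y, x ∈ EE j → y ∈ EE j → x ∈ EE k → y ∈ EE k → x = y := by
    intro k hk u v hu hv hu' hv'
    by_contra hne
    rcases hends u hu (hEEA k hk hu') with rfl | rfl
    · rcases hends v hv (hEEA k hk hv') with rfl | rfl
      · exact hne rfl
      · exact hun ⟨k, hk, hu', hv'⟩
    · rcases hends v hv (hEEA k hk hv') with rfl | rfl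
      · exact hun ⟨k, hk, hv', hu'⟩
      · exact hne rfl
  refine ⟨fun c => mem_insert_of_mem _ (hA.base c), ?_, ?_, ?_, ?_⟩
  · rintro i (rfl | hi)
    · exact hbj.trans (subset_insert _ _)
    · exact (hA.down i hi).trans (subset_insert _ _)
  · rintro i (rfl | hi)
    · exact hwf
    · exact hA.wf i hi
  · rintro i (rfl | hi) k (rfl | hk) hik u v hu hv hu' hv'
    · exact absurd rfl hik
    · exact huniq' k hk u v hu hv hu' hv'
    · exact huniq' i hi u v hu' hv' hu hv
    · exact hA.uniq i hi k hk hik u v hu hv hu' hv'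
  · rw [hXS]
    intro u hu v hv w hw huv hvw he
    rcases one_step_aux (XS A) EE A (ed j) hx hy hxy haff hCC hA.uniq hA.deg hun u hu v hv w hw
      huv hvw he with ⟨k, hk, a⟩ | a
    · exact ⟨k, mem_insert_of_mem _ hk, a⟩
    · exact ⟨j, mem_insert _ _, a⟩

/-- the union of a chain of admissible sets is admissible -/
theorem good_sUnion {c : Set (Set Crd)} (hc : IsChain (· ⊆ ·) c) (hne : c.Nonempty)
    (hg : ∀ S ∈ c, Good S) : Good (⋃₀ c) := by
  have hdown : Down (⋃₀ c) := by
    rintro j ⟨S, hS, hj⟩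
    exact ((hg S hS).down j hj).trans (subset_sUnion_of_mem hS)
  have hwf : ∀ j ∈ ⋃₀ c, WFc j := by
    rintro j ⟨S, hS, hj⟩
    exact (hg S hS).wf j hj
  refine ⟨?_, hdown, hwf, ?_, ?_⟩
  · intro i
    obtain ⟨S, hS⟩ := hne
    exact ⟨S, hS, (hg S hS).base i⟩
  · rintro j ⟨S, hS, hj⟩ k ⟨T, hT, hk⟩ hjk x y h1 h2 h3 h4
    rcases hc.total hS hT with h | h
    · exact (hg T hT).uniq j (h hj) k hk hjk x y h1 h2 h3 h4
    · exact (hg S hS).uniq j hj k (h hk) hjk x y h1 h2 h3 h4
  · intro x hx y hy z hz hxy hyz he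
    have hxz : x ≠ z := by
      rintro rfl
      rw [dist_self] at he
      have := dist_pos.2 hxy
      have := dist_pos.2 hyz
      linarith
    -- generating elements over the union come from a member of the chain
    have hGen : ∀ u ∈ Gen (⋃₀ c), ∃ S ∈ c, u ∈ Gen S := by
      rintro u (hu | hu)
      · obtain ⟨S, hS⟩ := hne
        exact ⟨S, hS, Or.inl hu⟩
      · simp only [mem_iUnion] at hu
        obtain ⟨j, ⟨S, hS, hj⟩, hu⟩ := hu
        exact ⟨S, hS, EE_subset_Gen hj hu⟩
    set d := min (dist x y) (min (dist y z) (dist x z)) with hd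
    have hdpos : 0 < d := by
      rw [hd]
      exact lt_min (dist_pos.2 hxy) (lt_min (dist_pos.2 hyz) (dist_pos.2 hxz))
    have hd1 : d ≤ dist x y := min_le_left _ _
    have hd2 : d ≤ dist y z := (min_le_right _ _).trans (min_le_left _ _)
    have hd3 : d ≤ dist x z := (min_le_right _ _).trans (min_le_right _ _)
    -- approximation by degenerate triples in segments
    have happ : ∀ e : ℝ, 0 < e → e ≤ d / 100 → ∃ j ∈ ⋃₀ c, ∃ x' ∈ EE j, ∃ y' ∈ EE j, ∃ z' ∈ EE j,
        dist x x' ≤ 4 * e ∧ dist y y' ≤ 4 * e ∧ dist z z' ≤ 4 * e := by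
      intro e he0 hed
      obtain ⟨P, hP, hPx⟩ := Metric.mem_closure_iff.1 hx e he0
      obtain ⟨Q, hQ, hQy⟩ := Metric.mem_closure_iff.1 hy e he0
      obtain ⟨R, hR, hRz⟩ := Metric.mem_closure_iff.1 hz e he0
      obtain ⟨S1, hS1, hP⟩ := hGen P hP
      obtain ⟨S2, hS2, hQ⟩ := hGen Q hQ
      obtain ⟨S3, hS3, hR⟩ := hGen R hR
      obtain ⟨S12, hS12, h1, h2⟩ : ∃ S ∈ c, S1 ⊆ S ∧ S2 ⊆ S := by
        rcases hc.total hS1 hS2 with h | h
        · exact ⟨S2, hS2, h, Subset.rfl⟩
        · exact ⟨S1, hS1, Subset.rfl, h⟩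
      obtain ⟨S, hS, h12, h3⟩ : ∃ S ∈ c, S12 ⊆ S ∧ S3 ⊆ S := by
        rcases hc.total hS12 hS3 with h | h
        · exact ⟨S3, hS3, h, Subset.rfl⟩
        · exact ⟨S12, hS12, Subset.rfl, h⟩
      obtain ⟨x', hx', y', hy', z', hz', hdeg', hle⟩ := exists_section (hg S hS).down hdown hwf hx hy
        hz he (Gen_mono (h1.trans h12) hP) (Gen_mono (h2.trans h12) hQ) (Gen_mono h3 hR)
      have n1 : 0 ≤ dist x' P := dist_nonneg
      have n2 : 0 ≤ dist y' Q := dist_nonneg
      have n3 : 0 ≤ dist z' R := dist_nonneg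
      have k1 : dist x x' ≤ 4 * e := by
        have := dist_triangle_right x x' P
        linarith
      have k2 : dist y y' ≤ 4 * e := by
        have := dist_triangle_right y y' Q
        linarith
      have k3 : dist z z' ≤ 4 * e := by
        have := dist_triangle_right z z' R
        linarith
      have l1 : x' ≠ y' := by
        rintro rfl
        have := dist_triangle_right x y x'
        linarith
      have l2 : y' ≠ z' := by
        rintro rfl
        have := dist_triangle_right y z y'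
        linarith
      obtain ⟨j, hj, m1, m2, m3⟩ := (hg S hS).deg x' hx' y' hy' z' hz' l1 l2 hdeg'
      exact ⟨j, ⟨S, hS, hj⟩, x', m1, y', m2, z', m3, k1, k2, k3⟩
    obtain ⟨j, hj, x0, hx0, y0, hy0, z0, hz0, a1, a2, a3⟩ := happ (d/100) (by positivity) le_rfl
    have hclose : ∀ e : ℝ, 0 < e → ∃ x' ∈ EE j, ∃ y' ∈ EE j, ∃ z' ∈ EE j,
        dist x x' < e ∧ dist y y' < e ∧ dist z z' < e := by
      intro e he0
      obtain ⟨k, hk, x1, hx1, y1, hy1, z1, hz1, b1, b2, b3⟩ := happ (min (d/100) (e/8))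
        (by positivity) (min_le_left _ _)
      have hm1 : min (d/100) (e/8) ≤ d/100 := min_le_left _ _
      have hm2 : min (d/100) (e/8) ≤ e/8 := min_le_right _ _
      have hkj : j = k := by
        by_contra hne
        have c1 : dist x0 x1 ≤ 8 * (d/100) := by
          have := dist_triangle_left x0 x1 x
          linarith
        have c2 : dist y0 y1 ≤ 8 * (d/100) := by
          have := dist_triangle_left y0 y1 y
          linarith
        have c3 : dist z0 z1 ≤ 8 * (d/100) := by
          have := dist_triangle_left z0 z1 z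
          linarith
        rcases separation hne hx0 hy0 hz0 hx1 hy1 hz1 c1 c2 c3 with h | h | h
        · have := dist_triangle4 x x0 y0 y
          rw [dist_comm y0 y] at this
          linarith
        · have := dist_triangle4 y y0 z0 z
          rw [dist_comm z0 z] at this
          linarith
        · have := dist_triangle4 x x0 z0 z
          rw [dist_comm z0 z] at this
          linarith
      subst hkj
      exact ⟨x1, hx1, y1, hy1, z1, hz1, by linarith, by linarith, by linarith⟩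
    refine ⟨j, hj, ?_, ?_, ?_⟩
    · rw [← (isClosed_EE j).closure_eq]
      refine Metric.mem_closure_iff.2 fun e he0 => ?_
      obtain ⟨x', hx', y', hy', z', hz', r1, r2, r3⟩ := hclose e he0
      exact ⟨x', hx', r1⟩
    · rw [← (isClosed_EE j).closure_eq]
      refine Metric.mem_closure_iff.2 fun e he0 => ?_
      obtain ⟨x', hx', y', hy', z', hz', r1, r2, r3⟩ := hclose e he0
      exact ⟨y', hy', r2⟩
    · rw [← (isClosed_EE j).closure_eq]
      refine Metric.mem_closure_iff.2 fun e he0 => ?_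
      obtain ⟨x', hx', y', hy', z', hz', r1, r2, r3⟩ := hclose e he0
      exact ⟨z', hz', r3⟩

/-- existence of an admissible set whose segments join all pairs of points -/
theorem exists_full : ∃ A, Good A ∧ ∀ x ∈ XS A, ∀ y ∈ XS A, x ≠ y → ∃ j ∈ A, x ∈ EE j ∧ y ∈ EE j := by
  obtain ⟨A, hA⟩ := zorn_subset {A : Set Crd | Good A} (by
    intro c hc hchain
    rcases c.eq_empty_or_nonempty with rfl | hne
    · exact ⟨range Crd.base, good_base, by simp⟩
    · exact ⟨⋃₀ c, good_sUnion hchain hne hc, fun s hs => subset_sUnion_of_mem hs⟩)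
  refine ⟨A, hA.prop, fun x hx y hy hxy => ?_⟩
  by_contra hun
  obtain ⟨j, hj, hg⟩ := good_insert hA.prop hx hy hxy hun
  exact hj (hA.le_of_ge hg (subset_insert _ _) (mem_insert _ _))

end

end Pool.Agent.Lib.MP_b098a7_gt
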